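import Mathlib

set_option autoImplicit false

namespace Pool.Agent.H313R2.FL

variable {E : Type*} [DecidableEq E]

/-- the rank axioms used below -/
structure IsRk (r : Finset E → ℕ) : Prop where
  le_insert : ∀ A e, r A ≤ r (insert e A)
  insert_le : ∀ A e, r (insert e A) ≤ r A + 1
  closed : ∀ A B e, A ⊆ B → r (insert e A) = r A → r (insert e B) = r B

namespace IsRk

variable {r : Finset E → ℕ}

lemma mono (h : IsRk r) {A B : Finset E} (hAB : A ⊆ B) : r A ≤ r B := by
  classical
  have key : ∀ D : Finset E, r A ≤ r (A ∪ D) := by
    intro D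
    induction D using Finset.induction_on with
    | empty => simp
    | insert e D _ ih =>
      rw [Finset.union_insert]
      exact ih.trans (h.le_insert _ _)
  have := key B
  rwa [Finset.union_eq_right.mpr hAB] at this

lemma union_le (h : IsRk r) (A B : Finset E) : r (A ∪ B) ≤ r A + B.card := by
  classical
  induction B using Finset.induction_on with
  | empty => simp
  | insert e D he ih =>
    rw [Finset.union_insert, Finset.card_insert_of_notMem he]
    have := h.insert_le (A ∪ D) e
    omega

lemma union_eq_of_forall (h : IsRk r) (A B : Finset E) (hB : ∀ e ∈ B, r (insert e A) = r A) :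
    r (A ∪ B) = r A := by
  classical
  induction B using Finset.induction_on with
  | empty => simp
  | insert e D he ih =>
    rw [Finset.union_insert]
    rw [h.closed A (A ∪ D) e Finset.subset_union_left (hB e (Finset.mem_insert_self _ _))]
    exact ih (fun f hf => hB f (Finset.mem_insert_of_mem hf))

lemma insert_eq_of_eq (h : IsRk r) {A B : Finset E} (hAB : A ⊆ B) (hr : r A = r B) {e : E}
    (he : e ∈ B) : r (insert e A) = r A := by
  apply le_antisymm
  · rw [hr]
    exact h.mono (Finset.insert_subset he hAB)
  · exact h.le_insert _ _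

/-- sets with the same closure have the same rank after adding anything -/
lemma union_congr (h : IsRk r) {A B : Finset E} (hAB : A ⊆ B) (hr : r A = r B) (C : Finset E) :
    r (A ∪ C) = r (B ∪ C) := by
  have h1 : r ((A ∪ C) ∪ B) = r (A ∪ C) := by
    apply h.union_eq_of_forall
    intro e he
    exact h.closed A (A ∪ C) e Finset.subset_union_left (h.insert_eq_of_eq hAB hr he)
  rw [← h1]
  congr 1
  ext x
  simp only [Finset.mem_union]
  constructor
  · rintro ((hx | hx) | hx)
    · exact Or.inl (hAB hx)
    · exact Or.inr hx
    · exact Or.inl hx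
  · rintro (hx | hx)
    · exact Or.inr hx
    · exact Or.inl (Or.inr hx)

end IsRk

/-- the (relative) flow polynomial of the minor obtained by contracting `K` and deleting
everything outside `K ∪ S`. -/
noncomputable def F (r : Finset E → ℕ) (K S : Finset E) (q : ℝ) : ℝ :=
  ∑ A ∈ S.powerset, (-1 : ℝ) ^ (S.card - A.card) * q ^ (A.card - (r (K ∪ A) - r K))

variable {r : Finset E → ℕ}

lemma F_empty (K : Finset E) (q : ℝ) : F r K ∅ q = 1 := by
  simp [F]

lemma F_congr (h : IsRk r) {K K' : Finset E} (hK : K ⊆ K') (hr : r K = r K') (S : Finset E)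
    (q : ℝ) : F r K S q = F r K' S q := by
  unfold F
  refine Finset.sum_congr rfl (fun A _ => ?_)
  rw [h.union_congr hK hr A, hr]

/-- splitting off one edge -/
lemma F_insert (K S : Finset E) (e : E) (he : e ∉ S) (q : ℝ) :
    F r K (insert e S) q = - F r K S q +
      ∑ A ∈ S.powerset, (-1 : ℝ) ^ (S.card - A.card) *
        q ^ (A.card + 1 - (r (K ∪ insert e A) - r K)) := by
  unfold F
  rw [Finset.sum_powerset_insert he, ← Finset.sum_neg_distrib]
  congr 1
  · refine Finset.sum_congr rfl (fun A hA => ?_)
    have hA' : A.card ≤ S.card := Finset.card_le_card (Finset.mem_powerset.mp hA)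
    rw [Finset.card_insert_of_notMem he, Nat.succ_sub hA', pow_succ]
    ring
  · refine Finset.sum_congr rfl (fun A hA => ?_)
    have hAS : A ⊆ S := Finset.mem_powerset.mp hA
    have heA : e ∉ A := fun hh => he (hAS hh)
    rw [Finset.card_insert_of_notMem he, Finset.card_insert_of_notMem heA, Nat.add_sub_add_right]

/-- deletion-contraction for a non-loop -/
lemma F_dc (h : IsRk r) (K S : Finset E) (e : E) (he : e ∉ S)
    (hnl : r (insert e K) = r K + 1) (q : ℝ) :
    F r K (insert e S) q = F r (insert e K) S q - F r K S q := by
  rw [F_insert K S e he q, sub_eq_add_neg, add_comm]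
  congr 1
  unfold F
  refine Finset.sum_congr rfl (fun A _ => ?_)
  have e1 : K ∪ insert e A = insert e K ∪ A := by
    rw [Finset.union_insert, Finset.insert_union]
  rw [e1]
  have h2 : r (insert e K) ≤ r (insert e K ∪ A) := h.mono Finset.subset_union_left
  congr 2
  omega

/-- loops contribute a factor `q - 1` -/
lemma F_loop (h : IsRk r) (K S : Finset E) (e : E) (he : e ∉ S)
    (hl : r (insert e K) = r K) (q : ℝ) :
    F r K (insert e S) q = (q - 1) * F r K S q := by
  rw [F_insert K S e he q, sub_mul, one_mul, sub_eq_add_neg, add_comm]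
  congr 1
  unfold F
  rw [Finset.mul_sum]
  refine Finset.sum_congr rfl (fun A _ => ?_)
  have e1 : K ∪ insert e A = insert e K ∪ A := by
    rw [Finset.union_insert, Finset.insert_union]
  have e2 : r (insert e K ∪ A) = r (K ∪ A) :=
    (h.union_congr (Finset.subset_insert e K) hl.symm A).symm
  rw [e1, e2]
  have h2 : r (K ∪ A) ≤ r K + A.card := h.union_le K A
  have e3 : A.card + 1 - (r (K ∪ A) - r K) = (A.card - (r (K ∪ A) - r K)) + 1 := by omega
  rw [e3, pow_succ]
  ring

/-- coloops kill the polynomial -/
lemma F_coloop (h : IsRk r) (K S : Finset E) (e : E) (he : e ∉ S)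
    (hc : r (insert e (K ∪ S)) = r (K ∪ S) + 1) (q : ℝ) :
    F r K (insert e S) q = 0 := by
  have hb : ∀ A ⊆ S, r (insert e (K ∪ A)) = r (K ∪ A) + 1 := by
    intro A hA
    by_contra hne
    have h1 := h.le_insert (K ∪ A) e
    have h2 := h.insert_le (K ∪ A) e
    have h3 : r (insert e (K ∪ A)) = r (K ∪ A) := by omega
    have h4 := h.closed (K ∪ A) (K ∪ S) e (Finset.union_subset_union_right hA) h3
    omega
  have hnl : r (insert e K) = r K + 1 := by
    have := hb ∅ (Finset.empty_subset _)
    simpa using this
  rw [F_dc h K S e he hnl q, sub_eq_zero]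
  unfold F
  refine Finset.sum_congr rfl (fun A hA => ?_)
  have h1 := hb A (Finset.mem_powerset.mp hA)
  rw [Finset.insert_union, h1, hnl, Nat.add_sub_add_right]

/-- `(K,S)` has no coloop -/
def CF (r : Finset E → ℕ) (K S : Finset E) : Prop :=
  ∀ e ∈ S, r (K ∪ S.erase e) = r (K ∪ S)

/-- all smaller minors are nonnegative: upper bound by contraction of an independent set -/
lemma F_le_contract (h : IsRk r) (q : ℝ) (N : ℕ)
    (hN : ∀ K S : Finset E, Disjoint K S → S.card < N → 0 ≤ F r K S q) :
    ∀ (I K S : Finset E), Disjoint K S → I ⊆ S → S.card ≤ N → r (K ∪ I) = r K + I.card →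
      F r K S q ≤ F r (K ∪ I) (S \ I) q := by
  classical
  intro I
  induction I using Finset.induction_on with
  | empty => intro K S _ _ _ _; simp
  | insert e I he ih =>
    intro K S hKS hIS hS hr
    have heS : e ∈ S := hIS (Finset.mem_insert_self _ _)
    have heK : e ∉ K := fun hh => (Finset.disjoint_left.mp hKS hh heS)
    have hS' : insert e (S.erase e) = S := Finset.insert_erase heS
    rw [Finset.card_insert_of_notMem he] at hr
    have hnl : r (insert e K) = r K + 1 := by
      have h1 := h.insert_le K e
      have h2 : r (insert e K ∪ I) ≤ r (insert e K) + I.card := h.union_le _ _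
      have e1 : K ∪ insert e I = insert e K ∪ I := by
        rw [Finset.union_insert, Finset.insert_union]
      rw [e1] at hr
      omega
    have hdc := F_dc (r := r) h K (S.erase e) e (Finset.notMem_erase e S) hnl q
    rw [hS'] at hdc
    have hdis1 : Disjoint K (S.erase e) :=
      Finset.disjoint_of_subset_right (Finset.erase_subset e S) hKS
    have hcard : (S.erase e).card < S.card := Finset.card_erase_lt_of_mem heS
    have hpos : 0 ≤ F r K (S.erase e) q := hN K _ hdis1 (lt_of_lt_of_le hcard hS)
    have hdis2 : Disjoint (insert e K) (S.erase e) := by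
      rw [Finset.disjoint_insert_left]
      exact ⟨Finset.notMem_erase e S, hdis1⟩
    have hIS' : I ⊆ S.erase e := by
      intro x hx
      rw [Finset.mem_erase]
      exact ⟨fun hh => he (hh ▸ hx), hIS (Finset.mem_insert_of_mem hx)⟩
    have hrr : r (insert e K ∪ I) = r (insert e K) + I.card := by
      have e1 : K ∪ insert e I = insert e K ∪ I := by
        rw [Finset.union_insert, Finset.insert_union]
      rw [← e1, hr, hnl]
      omega
    have := ih (insert e K) (S.erase e) hdis2 hIS' (by omega) hrr
    have e2 : insert e K ∪ I = K ∪ insert e I := by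
      rw [Finset.union_insert, Finset.insert_union]
    have e3 : S.erase e \ I = S \ insert e I := by
      ext x
      simp only [Finset.mem_sdiff, Finset.mem_erase, Finset.mem_insert]
      tauto
    rw [e2, e3] at this
    rw [hdc]
    linarith

/-- the circuit bound -/
lemma F_circuit (h : IsRk r) (q : ℝ) (N : ℕ)
    (hN : ∀ K S : Finset E, Disjoint K S → S.card < N → 0 ≤ F r K S q) :
    ∀ (k : ℕ) (C K S : Finset E), C.card = k + 1 → Disjoint K S → C ⊆ S → S.card ≤ N →
      r (K ∪ C) = r K + k → (∀ e ∈ C, r (K ∪ C.erase e) = r K + k) →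
      (q - (k + 1)) * F r (K ∪ C) (S \ C) q ≤ F r K S q := by
  classical
  intro k
  induction k with
  | zero =>
    intro C K S hC hKS hCS hS hr hr'
    obtain ⟨e, rfl⟩ := Finset.card_eq_one.mp (by simpa using hC)
    have heS : e ∈ S := hCS (Finset.mem_singleton_self _)
    have hS' : insert e (S.erase e) = S := Finset.insert_erase heS
    have e1 : K ∪ {e} = insert e K := by
      rw [Finset.union_comm, Finset.insert_eq]
    have hl : r (insert e K) = r K := by rw [← e1, hr]; rfl
    have hloop := F_loop (r := r) h K (S.erase e) e (Finset.notMem_erase e S) hl q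
    rw [hS'] at hloop
    rw [hloop, e1, ← F_congr h (Finset.subset_insert e K) hl.symm, Finset.sdiff_singleton_eq_erase]
    simp
  | succ k ih =>
    intro C K S hC hKS hCS hS hr hr'
    obtain ⟨e, heC⟩ : C.Nonempty := by
      rw [← Finset.card_pos]; omega
    have heS : e ∈ S := hCS heC
    have hS' : insert e (S.erase e) = S := Finset.insert_erase heS
    have hC' : insert e (C.erase e) = C := Finset.insert_erase heC
    have hcC : (C.erase e).card = k + 1 := by rw [Finset.card_erase_of_mem heC, hC]; rfl
    have hcS : (S.erase e).card < S.card := Finset.card_erase_lt_of_mem heS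
    have hUC : insert e K ∪ C.erase e = K ∪ C := by
      rw [Finset.insert_union, ← Finset.union_insert, hC']
    -- choose another element to see that e is not a loop
    obtain ⟨f, hf⟩ : (C.erase e).Nonempty := by
      rw [← Finset.card_pos]; omega
    have hfC : f ∈ C := Finset.mem_of_mem_erase hf
    have hef : e ≠ f := (Finset.ne_of_mem_erase hf).symm
    have hnl : r (insert e K) = r K + 1 := by
      have h1 := h.insert_le K e
      have h2 := hr' f hfC
      have e3 : K ∪ C.erase f = insert e K ∪ (C.erase f).erase e := by
        rw [Finset.insert_union, ← Finset.union_insert, Finset.insert_erase]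
        exact Finset.mem_erase.mpr ⟨hef, heC⟩
      rw [e3] at h2
      have h3 := h.union_le (insert e K) ((C.erase f).erase e)
      have h4 : ((C.erase f).erase e).card = k := by
        rw [Finset.card_erase_of_mem (Finset.mem_erase.mpr ⟨hef, heC⟩),
          Finset.card_erase_of_mem hfC, hC]
        rfl
      rw [h4] at h3
      omega
    have hdis1 : Disjoint K (S.erase e) :=
      Finset.disjoint_of_subset_right (Finset.erase_subset e S) hKS
    have hdis2 : Disjoint (insert e K) (S.erase e) := by
      rw [Finset.disjoint_insert_left]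
      exact ⟨Finset.notMem_erase e S, hdis1⟩
    have hCS' : C.erase e ⊆ S.erase e := Finset.erase_subset_erase e hCS
    have hI : ∀ g ∈ C.erase e, r (insert e K ∪ (C.erase e).erase g) = r (insert e K) + k := by
      intro g hg
      have hgC : g ∈ C := Finset.mem_of_mem_erase hg
      have hge : g ≠ e := Finset.ne_of_mem_erase hg
      have e4 : insert e K ∪ (C.erase e).erase g = K ∪ C.erase g := by
        rw [Finset.insert_union, ← Finset.union_insert, Finset.erase_right_comm,
          Finset.insert_erase]
        exact Finset.mem_erase.mpr ⟨hge.symm, heC⟩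
      rw [e4, hr' g hgC, hnl]
      omega
    have h1 := ih (C.erase e) (insert e K) (S.erase e) hcC hdis2 hCS' (by omega)
      (by rw [hUC, hr, hnl]; omega) hI
    have h2 := F_le_contract h q N hN (C.erase e) K (S.erase e) hdis1 hCS' (by omega)
      (by rw [hr' e heC, hcC])
    have hsd : S.erase e \ C.erase e = S \ C := by
      ext x
      simp only [Finset.mem_sdiff, Finset.mem_erase]
      constructor
      · rintro ⟨⟨h1, h2⟩, h3⟩
        exact ⟨h2, fun h4 => h3 ⟨h1, h4⟩⟩
      · rintro ⟨h1, h2⟩
        exact ⟨⟨fun h3 => h2 (h3 ▸ heC), h1⟩, fun h3 => h2 h3.2⟩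
    have hcl : F r (K ∪ C.erase e) (S \ C) q = F r (K ∪ C) (S \ C) q :=
      F_congr h (Finset.union_subset_union_right (Finset.erase_subset e C))
        (by rw [hr' e heC, hr]) _ q
    have hdc := F_dc (r := r) h K (S.erase e) e (Finset.notMem_erase e S) hnl q
    rw [hS'] at hdc
    rw [hUC, hsd] at h1
    rw [hsd, hcl] at h2
    rw [hdc]
    push_cast
    nlinarith [h1, h2]

/-- girth condition: every loopless cosimple minor has a dependent set with fewer than `q`
elements -/
def GC (r : Finset E → ℕ) (q : ℝ) : Prop :=
  ∀ K S : Finset E, Disjoint K S → S.Nonempty →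
    (∀ e ∈ S, r (insert e K) = r K + 1) →
    (∀ e ∈ S, ∀ f ∈ S, r (K ∪ (S.erase e).erase f) = r (K ∪ S)) →
    ∃ T ⊆ S, (T.card : ℝ) < q ∧ r (K ∪ T) < r K + T.card

lemma exists_circuit (h : IsRk r) (K : Finset E) :
    ∀ (n : ℕ) (T : Finset E), T.card = n → r (K ∪ T) < r K + T.card →
      ∃ C ⊆ T, ∃ k, C.card = k + 1 ∧ r (K ∪ C) = r K + k ∧
        (∀ e ∈ C, r (K ∪ C.erase e) = r K + k) := by
  classical
  intro n
  induction n with
  | zero =>
    intro T hT hr
    rw [Finset.card_eq_zero] at hT
    subst hT
    simp at hr
  | succ n ih =>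
    intro T hT hr
    by_cases hall : ∀ e ∈ T, r (K ∪ T.erase e) = r K + n
    · refine ⟨T, Finset.Subset.refl _, n, hT, ?_, hall⟩
      obtain ⟨e, he⟩ : T.Nonempty := by rw [← Finset.card_pos]; omega
      have h1 := hall e he
      have h2 := h.mono (Finset.union_subset_union_right (s := K) (Finset.erase_subset e T))
      omega
    · push Not at hall
      obtain ⟨e, he, hne⟩ := hall
      have hc : (T.erase e).card = n := by rw [Finset.card_erase_of_mem he, hT]; rfl
      have h1 := h.union_le K (T.erase e)
      obtain ⟨C, hCT, k, h2⟩ := ih (T.erase e) hc (by omega)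
      exact ⟨C, hCT.trans (Finset.erase_subset e T), k, h2⟩

/-- main positivity theorem, abstract form -/
theorem F_pos_aux (h : IsRk r) (q : ℝ) (hq : 1 < q) (hGC : GC r q) :
    ∀ (N : ℕ), (∀ K S : Finset E, S.card = N → Disjoint K S → CF r K S → 0 < F r K S q) ∧
      (∀ K S : Finset E, S.card = N → Disjoint K S → 0 ≤ F r K S q) := by
  classical
  intro N
  induction N using Nat.strong_induction_on with
  | _ N IH =>
  have hpos : ∀ K S : Finset E, S.card = N → Disjoint K S → CF r K S → 0 < F r K S q := by
    intro K S hSN hKS hcf
    have hN : ∀ K S : Finset E, Disjoint K S → S.card < N → 0 ≤ F r K S q :=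
      fun K S hKS hlt => (IH S.card hlt).2 K S rfl hKS
    rcases S.eq_empty_or_nonempty with rfl | hne
    · rw [F_empty]; norm_num
    by_cases hloop : ∃ e ∈ S, r (insert e K) ≠ r K + 1
    · obtain ⟨e, he, hl⟩ := hloop
      have hl' : r (insert e K) = r K := by
        have h1 := h.le_insert K e
        have h2 := h.insert_le K e
        omega
      have hS' : insert e (S.erase e) = S := Finset.insert_erase he
      have hfl := F_loop (r := r) h K (S.erase e) e (Finset.notMem_erase e S) hl' q
      rw [hS'] at hfl
      rw [hfl]
      have hdis1 : Disjoint K (S.erase e) :=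
        Finset.disjoint_of_subset_right (Finset.erase_subset e S) hKS
      have hcf' : CF r K (S.erase e) := by
        intro f hf
        have hfS : f ∈ S := Finset.mem_of_mem_erase hf
        have hfe : f ≠ e := Finset.ne_of_mem_erase hf
        have e1 : r (K ∪ (S.erase e).erase f) = r (insert e K ∪ (S.erase e).erase f) :=
          h.union_congr (Finset.subset_insert e K) hl'.symm _
        have e2 : insert e K ∪ (S.erase e).erase f = K ∪ S.erase f := by
          rw [Finset.insert_union, ← Finset.union_insert, Finset.erase_right_comm,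
            Finset.insert_erase]
          exact Finset.mem_erase.mpr ⟨hfe.symm, he⟩
        rw [e1, e2, hcf f hfS, hcf e he]
      have := (IH (S.erase e).card (by
        have := Finset.card_erase_lt_of_mem he; omega)).1 K (S.erase e) rfl hdis1 hcf'
      have hq1 : 0 < q - 1 := by linarith
      positivity
    push Not at hloop
    by_cases hser : ∀ e ∈ S, ∀ f ∈ S, r (K ∪ (S.erase e).erase f) = r (K ∪ S)
    · -- cosimple case
      obtain ⟨T, hTS, hTq, hTd⟩ := hGC K S hKS hne hloop hser
      obtain ⟨C, hCT, k, hCk, hrC, hrC'⟩ := exists_circuit h K T.card T rfl hTd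
      have hCS : C ⊆ S := hCT.trans hTS
      have hbound := F_circuit h q N hN k C K S hCk hKS hCS (by omega) hrC hrC'
      have hCne : C.Nonempty := by rw [← Finset.card_pos]; omega
      have hlt : (S \ C).card < S.card := by
        apply Finset.card_lt_card
        rw [Finset.ssubset_iff_subset_ne]
        refine ⟨Finset.sdiff_subset, fun hh => ?_⟩
        obtain ⟨x, hx⟩ := hCne
        have := hCS hx
        rw [← hh] at this
        exact (Finset.mem_sdiff.mp this).2 hx
      have hdis : Disjoint (K ∪ C) (S \ C) := by
        rw [Finset.disjoint_union_left]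
        exact ⟨Finset.disjoint_of_subset_right Finset.sdiff_subset hKS,
          Finset.disjoint_sdiff⟩
      have hcf' : CF r (K ∪ C) (S \ C) := by
        intro f hf
        have hfS : f ∈ S := (Finset.mem_sdiff.mp hf).1
        have hfC : f ∉ C := (Finset.mem_sdiff.mp hf).2
        have e1 : K ∪ C ∪ (S \ C).erase f = K ∪ S.erase f := by
          ext x
          simp only [Finset.mem_union, Finset.mem_erase, Finset.mem_sdiff]
          constructor
          · rintro ((hx | hx) | ⟨h1, h2, h3⟩)
            · exact Or.inl hx
            · exact Or.inr ⟨fun hh => hfC (hh ▸ hx), hCS hx⟩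
            · exact Or.inr ⟨h1, h2⟩
          · rintro (hx | ⟨h1, h2⟩)
            · exact Or.inl (Or.inl hx)
            · by_cases hxC : x ∈ C
              · exact Or.inl (Or.inr hxC)
              · exact Or.inr ⟨h1, h2, hxC⟩
        have e2 : K ∪ C ∪ (S \ C) = K ∪ S := by
          rw [Finset.union_assoc, Finset.union_sdiff_of_subset hCS]
        rw [e1, e2, hcf f hfS]
      have hQ := (IH (S \ C).card (by omega)).1 (K ∪ C) (S \ C) rfl hdis hcf'
      have hkq : 0 < q - (k + 1) := by
        have h1 : (C.card : ℝ) ≤ T.card := by exact_mod_cast Finset.card_le_card hCT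
        rw [hCk] at h1
        push_cast at h1
        linarith
      have := mul_pos hkq hQ
      linarith
    · -- series pair
      push Not at hser
      obtain ⟨e, he, f, hf, hne2⟩ := hser
      have hfe : f ≠ e := by
        rintro rfl
        apply hne2
        rw [Finset.erase_idem]
        exact hcf f hf
      have hS' : insert e (S.erase e) = S := Finset.insert_erase he
      have hfe' : f ∈ S.erase e := Finset.mem_erase.mpr ⟨hfe, hf⟩
      have hS'' : insert f ((S.erase e).erase f) = S.erase e := Finset.insert_erase hfe'
      have hco : r (insert f (K ∪ (S.erase e).erase f)) = r (K ∪ (S.erase e).erase f) + 1 := by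
        have h1 := h.le_insert (K ∪ (S.erase e).erase f) f
        have h2 := h.insert_le (K ∪ (S.erase e).erase f) f
        have h3 : insert f (K ∪ (S.erase e).erase f) = K ∪ S.erase e := by
          rw [← Finset.union_insert, hS'']
        have h4 := hcf e he
        rw [h3] at h1 h2 ⊢
        omega
      have h0 := F_coloop (r := r) h K ((S.erase e).erase f) f (Finset.notMem_erase _ _) hco q
      rw [hS''] at h0
      have hdc := F_dc (r := r) h K (S.erase e) e (Finset.notMem_erase e S) (hloop e he) q
      rw [hS', h0, sub_zero] at hdc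
      rw [hdc]
      have hdis1 : Disjoint K (S.erase e) :=
        Finset.disjoint_of_subset_right (Finset.erase_subset e S) hKS
      have hdis2 : Disjoint (insert e K) (S.erase e) := by
        rw [Finset.disjoint_insert_left]
        exact ⟨Finset.notMem_erase e S, hdis1⟩
      have hcf' : CF r (insert e K) (S.erase e) := by
        intro g hg
        have hgS : g ∈ S := Finset.mem_of_mem_erase hg
        have hge : g ≠ e := Finset.ne_of_mem_erase hg
        have e4 : insert e K ∪ (S.erase e).erase g = K ∪ S.erase g := by
          rw [Finset.insert_union, ← Finset.union_insert, Finset.erase_right_comm,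
            Finset.insert_erase]
          exact Finset.mem_erase.mpr ⟨hge.symm, he⟩
        have e5 : insert e K ∪ S.erase e = K ∪ S := by
          rw [Finset.insert_union, ← Finset.union_insert, hS']
        rw [e4, e5, hcf g hgS]
      exact (IH (S.erase e).card (by
        have := Finset.card_erase_lt_of_mem he; omega)).1 (insert e K) (S.erase e) rfl hdis2 hcf'
  refine ⟨hpos, ?_⟩
  intro K S hSN hKS
  by_cases hcf : CF r K S
  · exact (hpos K S hSN hKS hcf).le
  · unfold CF at hcf
    push Not at hcf
    obtain ⟨e, he, hne⟩ := hcf
    have hS' : insert e (S.erase e) = S := Finset.insert_erase he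
    have hco : r (insert e (K ∪ S.erase e)) = r (K ∪ S.erase e) + 1 := by
      have h1 := h.le_insert (K ∪ S.erase e) e
      have h2 := h.insert_le (K ∪ S.erase e) e
      have h3 : insert e (K ∪ S.erase e) = K ∪ S := by
        rw [← Finset.union_insert, hS']
      rw [h3] at h1 h2 ⊢
      omega
    have h0 := F_coloop (r := r) h K (S.erase e) e (Finset.notMem_erase _ _) hco q
    rw [hS'] at h0
    exact h0.ge

/-- main positivity theorem, abstract form -/
theorem F_pos (h : IsRk r) (q : ℝ) (hq : 1 < q) (hGC : GC r q) (K S : Finset E)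
    (hKS : Disjoint K S) (hcf : CF r K S) : 0 < F r K S q :=
  (F_pos_aux h q hq hGC S.card).1 K S rfl hKS hcf

end Pool.Agent.H313R2.FL
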