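import Mathlib
import Pool.Agent.H313R2.FL.Abs

set_option autoImplicit false

namespace Pool.Agent.H313R2.FL

variable {V E : Type*}

/-- the simple graph spanned by the edges in `A` -/
def gr (ends : E → V × V) (A : Finset E) : SimpleGraph V :=
  SimpleGraph.fromRel (fun u v : V => ∃ f ∈ A, ends f = (u, v))

/-- connectivity through the edges of `A` -/
def conn (ends : E → V × V) (A : Finset E) (u v : V) : Prop := (gr ends A).Reachable u v

/-- number of components -/
noncomputable def cc (ends : E → V × V) (A : Finset E) : ℕ :=
  Nat.card (gr ends A).ConnectedComponent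

variable {ends : E → V × V}

lemma gr_mono {A B : Finset E} (h : A ⊆ B) : gr ends A ≤ gr ends B := by
  intro u v huv
  simp only [gr, SimpleGraph.fromRel_adj] at huv ⊢
  refine ⟨huv.1, ?_⟩
  rcases huv.2 with ⟨f, hf, h1⟩ | ⟨f, hf, h1⟩
  · exact Or.inl ⟨f, h hf, h1⟩
  · exact Or.inr ⟨f, h hf, h1⟩

lemma conn_mono {A B : Finset E} (h : A ⊆ B) {u v : V} (huv : conn ends A u v) :
    conn ends B u v := SimpleGraph.Reachable.mono (gr_mono h) huv

lemma conn_refl (A : Finset E) (u : V) : conn ends A u u := SimpleGraph.Reachable.refl u

lemma conn_symm {A : Finset E} {u v : V} (h : conn ends A u v) : conn ends A v u :=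
  SimpleGraph.Reachable.symm h

lemma conn_trans {A : Finset E} {u v w : V} (h : conn ends A u v) (h' : conn ends A v w) :
    conn ends A u w := SimpleGraph.Reachable.trans h h'

lemma conn_edge {A : Finset E} {f : E} (hf : f ∈ A) :
    conn ends A (ends f).1 (ends f).2 := by
  by_cases h : (ends f).1 = (ends f).2
  · rw [h]; exact conn_refl _ _
  · apply SimpleGraph.Adj.reachable
    simp only [gr, SimpleGraph.fromRel_adj]
    exact ⟨h, Or.inl ⟨f, hf, rfl⟩⟩

/-- induction principle: an equivalence relation containing the edges of `A` contains `conn` -/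
lemma conn_le {A : Finset E} (R : V → V → Prop) (hrefl : ∀ u, R u u)
    (hsymm : ∀ u v, R u v → R v u) (htrans : ∀ u v w, R u v → R v w → R u w)
    (hedge : ∀ f ∈ A, R (ends f).1 (ends f).2) {u v : V} (h : conn ends A u v) : R u v := by
  obtain ⟨p⟩ := h
  induction p with
  | nil => exact hrefl _
  | cons hadj p ih =>
    refine htrans _ _ _ ?_ ih
    simp only [gr, SimpleGraph.fromRel_adj] at hadj
    rcases hadj.2 with ⟨f, hf, h1⟩ | ⟨f, hf, h1⟩
    · have := hedge f hf
      rw [h1] at this
      exact this
    · have := hedge f hf
      rw [h1] at this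
      exact hsymm _ _ this

variable [DecidableEq E]

lemma conn_insert {A : Finset E} {e : E} {u v : V} :
    conn ends (insert e A) u v ↔ conn ends A u v ∨
      (conn ends A u (ends e).1 ∧ conn ends A (ends e).2 v) ∨
      (conn ends A u (ends e).2 ∧ conn ends A (ends e).1 v) := by
  constructor
  · intro h
    refine conn_le (ends := ends) (A := insert e A)
      (fun u v => conn ends A u v ∨
      (conn ends A u (ends e).1 ∧ conn ends A (ends e).2 v) ∨
      (conn ends A u (ends e).2 ∧ conn ends A (ends e).1 v)) ?_ ?_ ?_ ?_ h
    · intro u; exact Or.inl (conn_refl _ _)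
    · rintro u v (h | ⟨h1, h2⟩ | ⟨h1, h2⟩)
      · exact Or.inl (conn_symm h)
      · exact Or.inr (Or.inr ⟨conn_symm h2, conn_symm h1⟩)
      · exact Or.inr (Or.inl ⟨conn_symm h2, conn_symm h1⟩)
    · rintro u v w (h | ⟨h1, h2⟩ | ⟨h1, h2⟩) (h' | ⟨h1', h2'⟩ | ⟨h1', h2'⟩)
      · exact Or.inl (conn_trans h h')
      · exact Or.inr (Or.inl ⟨conn_trans h h1', h2'⟩)
      · exact Or.inr (Or.inr ⟨conn_trans h h1', h2'⟩)
      · exact Or.inr (Or.inl ⟨h1, conn_trans h2 h'⟩)
      · exact Or.inr (Or.inl ⟨h1, h2'⟩)
      · exact Or.inl (conn_trans h1 h2')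
      · exact Or.inr (Or.inr ⟨h1, conn_trans h2 h'⟩)
      · exact Or.inl (conn_trans h1 h2')
      · exact Or.inr (Or.inr ⟨h1, h2'⟩)
    · intro f hf
      rcases Finset.mem_insert.mp hf with rfl | hf
      · exact Or.inr (Or.inl ⟨conn_refl _ _, conn_refl _ _⟩)
      · exact Or.inl (conn_edge hf)
  · have hsub : A ⊆ insert e A := Finset.subset_insert e A
    have he : conn ends (insert e A) (ends e).1 (ends e).2 := conn_edge (Finset.mem_insert_self _ _)
    rintro (h | ⟨h1, h2⟩ | ⟨h1, h2⟩)
    · exact conn_mono hsub h
    · exact conn_trans (conn_mono hsub h1) (conn_trans he (conn_mono hsub h2))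
    · exact conn_trans (conn_mono hsub h1) (conn_trans (conn_symm he) (conn_mono hsub h2))

lemma conn_insert_of_conn {A : Finset E} {e : E} (h : conn ends A (ends e).1 (ends e).2)
    {u v : V} : conn ends (insert e A) u v ↔ conn ends A u v := by
  rw [conn_insert]
  constructor
  · rintro (h' | ⟨h1, h2⟩ | ⟨h1, h2⟩)
    · exact h'
    · exact conn_trans h1 (conn_trans h h2)
    · exact conn_trans h1 (conn_trans (conn_symm h) h2)
  · exact Or.inl

/-- the natural map on components -/
noncomputable def ccMap {A B : Finset E} (h : A ⊆ B) :
    (gr ends A).ConnectedComponent → (gr ends B).ConnectedComponent :=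
  SimpleGraph.ConnectedComponent.map (SimpleGraph.Hom.ofLE (gr_mono h))

lemma cc_insert_of_conn [Finite V] {A : Finset E} {e : E}
    (h : conn ends A (ends e).1 (ends e).2) : cc ends (insert e A) = cc ends A := by
  unfold cc
  symm
  apply Nat.card_eq_of_bijective (ccMap (ends := ends) (Finset.subset_insert e A))
  constructor
  · intro x y hxy
    induction x using SimpleGraph.ConnectedComponent.ind with | _ u =>
    induction y using SimpleGraph.ConnectedComponent.ind with | _ v =>
    rw [SimpleGraph.ConnectedComponent.eq]
    have h1 : (gr ends (insert e A)).Reachable u v := by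
      rw [← SimpleGraph.ConnectedComponent.eq]
      exact hxy
    exact (conn_insert_of_conn h).mp h1
  · intro y
    induction y using SimpleGraph.ConnectedComponent.ind with | _ v =>
    exact ⟨(gr ends A).connectedComponentMk v, rfl⟩

lemma cc_insert_of_not_conn [Finite V] {A : Finset E} {e : E}
    (h : ¬ conn ends A (ends e).1 (ends e).2) : cc ends (insert e A) + 1 = cc ends A := by
  classical
  set b := (gr ends A).connectedComponentMk (ends e).2 with hb
  haveI : Finite (gr ends A).ConnectedComponent := Quot.finite _
  haveI : Fintype (gr ends A).ConnectedComponent := Fintype.ofFinite _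
  have h1 : Nat.card {x : (gr ends A).ConnectedComponent // x ≠ b} = cc ends (insert e A) := by
    unfold cc
    apply Nat.card_eq_of_bijective
      (fun x : {x : (gr ends A).ConnectedComponent // x ≠ b} =>
        ccMap (ends := ends) (Finset.subset_insert e A) x.1)
    constructor
    · rintro ⟨x, hx⟩ ⟨y, hy⟩ hxy
      induction x using SimpleGraph.ConnectedComponent.ind with | _ u =>
      induction y using SimpleGraph.ConnectedComponent.ind with | _ v =>
      have h1 : conn ends (insert e A) u v := by
        have : (gr ends (insert e A)).connectedComponentMk u =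
          (gr ends (insert e A)).connectedComponentMk v := hxy
        exact SimpleGraph.ConnectedComponent.eq.mp this
      have hx' : ¬ conn ends A u (ends e).2 := by
        intro hh
        exact hx (SimpleGraph.ConnectedComponent.eq.mpr hh)
      have hy' : ¬ conn ends A v (ends e).2 := by
        intro hh
        exact hy (SimpleGraph.ConnectedComponent.eq.mpr hh)
      apply Subtype.ext
      show (gr ends A).connectedComponentMk u = (gr ends A).connectedComponentMk v
      rw [SimpleGraph.ConnectedComponent.eq]
      rcases conn_insert.mp h1 with h2 | ⟨_, h2⟩ | ⟨h2, _⟩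
      · exact h2
      · exact absurd (conn_symm h2) hy'
      · exact absurd h2 hx'
    · intro y
      induction y using SimpleGraph.ConnectedComponent.ind with | _ v =>
      by_cases hv : conn ends A v (ends e).2
      · refine ⟨⟨(gr ends A).connectedComponentMk (ends e).1, ?_⟩, ?_⟩
        · intro hh
          exact h (SimpleGraph.ConnectedComponent.eq.mp hh)
        · show (gr ends (insert e A)).connectedComponentMk (ends e).1 =
            (gr ends (insert e A)).connectedComponentMk v
          rw [SimpleGraph.ConnectedComponent.eq]
          exact conn_insert.mpr (Or.inr (Or.inl ⟨conn_refl _ _, conn_symm hv⟩))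
      · refine ⟨⟨(gr ends A).connectedComponentMk v, ?_⟩, rfl⟩
        intro hh
        exact hv (SimpleGraph.ConnectedComponent.eq.mp hh)
  rw [← h1]
  unfold cc
  rw [Nat.card_eq_fintype_card, Nat.card_eq_fintype_card]
  have h2 := Fintype.card_subtype_compl (fun x : (gr ends A).ConnectedComponent => x = b)
  rw [Fintype.card_subtype_eq] at h2
  have h3 : 0 < Fintype.card (gr ends A).ConnectedComponent := Fintype.card_pos_iff.mpr ⟨b⟩
  have h4 : Fintype.card {x : (gr ends A).ConnectedComponent // x ≠ b} =
    Fintype.card {x : (gr ends A).ConnectedComponent // ¬ x = b} := rfl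
  omega

lemma cc_le [Finite V] (A : Finset E) : cc ends A ≤ Nat.card V := by
  unfold cc
  exact Nat.card_le_card_of_surjective (gr ends A).connectedComponentMk
    (fun y => by
      induction y using SimpleGraph.ConnectedComponent.ind with | _ v => exact ⟨v, rfl⟩)

/-- the rank function of the cycle matroid -/
noncomputable def rk (ends : E → V × V) (A : Finset E) : ℕ := Nat.card V - cc ends A

lemma rk_insert_of_conn [Finite V] {A : Finset E} {e : E}
    (h : conn ends A (ends e).1 (ends e).2) : rk ends (insert e A) = rk ends A := by
  unfold rk; rw [cc_insert_of_conn h]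

lemma rk_insert_of_not_conn [Finite V] {A : Finset E} {e : E}
    (h : ¬ conn ends A (ends e).1 (ends e).2) : rk ends (insert e A) = rk ends A + 1 := by
  unfold rk
  have h1 := cc_insert_of_not_conn h
  have h2 := cc_le (ends := ends) A
  omega

lemma rk_insert_iff [Finite V] {A : Finset E} {e : E} :
    rk ends (insert e A) = rk ends A ↔ conn ends A (ends e).1 (ends e).2 := by
  constructor
  · intro h
    by_contra hh
    have := rk_insert_of_not_conn hh
    omega
  · exact rk_insert_of_conn

lemma rk_insert_iff' [Finite V] {A : Finset E} {e : E} :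
    rk ends (insert e A) = rk ends A + 1 ↔ ¬ conn ends A (ends e).1 (ends e).2 := by
  constructor
  · intro h hh
    have := rk_insert_of_conn hh
    omega
  · exact rk_insert_of_not_conn

lemma isRk_rk [Finite V] (ends : E → V × V) : IsRk (rk ends) where
  le_insert A e := by
    by_cases h : conn ends A (ends e).1 (ends e).2
    · rw [rk_insert_of_conn h]
    · rw [rk_insert_of_not_conn h]; omega
  insert_le A e := by
    by_cases h : conn ends A (ends e).1 (ends e).2
    · rw [rk_insert_of_conn h]; omega
    · rw [rk_insert_of_not_conn h]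
  closed A B e hAB h := by
    rw [rk_insert_iff] at h ⊢
    exact conn_mono hAB h

lemma cc_empty [Finite V] : cc ends (∅ : Finset E) = Nat.card V := by
  unfold cc
  symm
  apply Nat.card_eq_of_bijective (gr ends (∅ : Finset E)).connectedComponentMk
  constructor
  · intro u v huv
    have h1 : conn ends (∅ : Finset E) u v := SimpleGraph.ConnectedComponent.eq.mp huv
    exact conn_le (ends := ends) (A := ∅) (fun u v => u = v) (fun _ => rfl)
      (fun _ _ h => h.symm) (fun _ _ _ h h' => h.trans h') (by simp) h1
  · intro y
    induction y using SimpleGraph.ConnectedComponent.ind with | _ v => exact ⟨v, rfl⟩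

lemma rk_empty [Finite V] : rk ends (∅ : Finset E) = 0 := by
  unfold rk; rw [cc_empty]; omega

/-- same rank (with inclusion) gives the same connectivity -/
lemma conn_of_rk_eq [Finite V] {A B : Finset E} (hAB : A ⊆ B) (hr : rk ends A = rk ends B)
    {u v : V} (h : conn ends B u v) : conn ends A u v := by
  refine conn_le (ends := ends) (A := B) (fun u v => conn ends A u v) (fun u => conn_refl _ _)
      (fun _ _ h => conn_symm h) (fun _ _ _ h h' => conn_trans h h') ?_ h
  intro f hf
  rw [← rk_insert_iff]
  exact (isRk_rk ends).insert_eq_of_eq hAB hr hf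

end Pool.Agent.H313R2.FL
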