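import Mathlib
import Pool.Agent.H313R2.FL.Comp

set_option autoImplicit false

namespace Pool.Agent.H313R2.FL

open Classical in
/-- edges of `S` leaving the class of `x` (modulo `K`) -/
noncomputable def out {V E : Type*} (ends : E → V × V) (K S : Finset E) (x : V) : Finset E :=
  S.filter (fun f => (conn ends K x (ends f).1 ∧ ¬ conn ends K x (ends f).2) ∨
    (conn ends K x (ends f).2 ∧ ¬ conn ends K x (ends f).1))

variable {V E : Type*} [DecidableEq E] {ends : E → V × V}

/-- all subsets of `S` with at most `ρ` elements are independent modulo `K` -/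
def Ind (ends : E → V × V) (ρ : ℕ) (K S : Finset E) : Prop :=
  ∀ T ⊆ S, T.card ≤ ρ → rk ends (K ∪ T) = rk ends K + T.card

omit [DecidableEq E] in
lemma mem_out {K S : Finset E} {x : V} {f : E} :
    f ∈ out ends K S x ↔ f ∈ S ∧ ((conn ends K x (ends f).1 ∧ ¬ conn ends K x (ends f).2) ∨
    (conn ends K x (ends f).2 ∧ ¬ conn ends K x (ends f).1)) := by
  classical
  unfold out
  rw [Finset.mem_filter]

omit [DecidableEq E] in
lemma out_subset {K S : Finset E} {x : V} : out ends K S x ⊆ S :=
  fun _ hf => (mem_out.mp hf).1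

lemma ind_not_conn [Finite V] {ρ : ℕ} {K S : Finset E} (h : Ind ends ρ K S) {T : Finset E}
    (hT : T ⊆ S) {f : E} (hf : f ∈ S) (hfT : f ∉ T) (hc : T.card + 1 ≤ ρ) :
    ¬ conn ends (K ∪ T) (ends f).1 (ends f).2 := by
  have h1 := h T hT (by omega)
  have h2 := h (insert f T) (Finset.insert_subset hf hT) (by
    rw [Finset.card_insert_of_notMem hfT]; omega)
  rw [Finset.card_insert_of_notMem hfT, Finset.union_insert] at h2
  rw [← rk_insert_iff', h2, h1]
  omega

/-- star lemma -/
lemma star_conn {B D : Finset E} {x : V}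
    (hD : ∀ f ∈ D, conn ends B x (ends f).1 ∨ conn ends B x (ends f).2) {u v : V}
    (h : conn ends (B ∪ D) u v) :
    conn ends B u v ∨ ((∃ Z ⊆ D, Z.card ≤ 1 ∧ conn ends (B ∪ Z) x u) ∧
      (∃ Z ⊆ D, Z.card ≤ 1 ∧ conn ends (B ∪ Z) x v)) := by
  refine conn_le (ends := ends) (A := B ∪ D) (fun u v => conn ends B u v ∨
      ((∃ Z ⊆ D, Z.card ≤ 1 ∧ conn ends (B ∪ Z) x u) ∧
      (∃ Z ⊆ D, Z.card ≤ 1 ∧ conn ends (B ∪ Z) x v))) ?_ ?_ ?_ ?_ h
  · intro u; exact Or.inl (conn_refl _ _)
  · rintro u v (h | ⟨h1, h2⟩)
    · exact Or.inl (conn_symm h)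
    · exact Or.inr ⟨h2, h1⟩
  · rintro u v w (h | ⟨h1, h2⟩) (h' | ⟨h1', h2'⟩)
    · exact Or.inl (conn_trans h h')
    · refine Or.inr ⟨?_, h2'⟩
      obtain ⟨Z, hZ, hc, hx⟩ := h1'
      exact ⟨Z, hZ, hc, conn_trans hx (conn_mono Finset.subset_union_left (conn_symm h))⟩
    · refine Or.inr ⟨h1, ?_⟩
      obtain ⟨Z, hZ, hc, hx⟩ := h2
      exact ⟨Z, hZ, hc, conn_trans hx (conn_mono Finset.subset_union_left h')⟩
    · exact Or.inr ⟨h1, h2'⟩
  · intro f hf
    rcases Finset.mem_union.mp hf with hf | hf
    · exact Or.inl (conn_edge hf)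
    · right
      have he : conn ends (B ∪ {f}) (ends f).1 (ends f).2 :=
        conn_edge (Finset.mem_union_right _ (Finset.mem_singleton_self f))
      have hs : ({f} : Finset E) ⊆ D := Finset.singleton_subset_iff.mpr hf
      rcases hD f hf with h1 | h1
      · have h1' := conn_mono (Finset.subset_union_left (s₂ := {f})) h1
        exact ⟨⟨{f}, hs, by simp, h1'⟩, ⟨{f}, hs, by simp, conn_trans h1' he⟩⟩
      · have h1' := conn_mono (Finset.subset_union_left (s₂ := {f})) h1
        exact ⟨⟨{f}, hs, by simp, conn_trans h1' (conn_symm he)⟩, ⟨{f}, hs, by simp, h1'⟩⟩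

lemma star_conn_two {B D : Finset E} {x : V}
    (hD : ∀ f ∈ D, conn ends B x (ends f).1 ∨ conn ends B x (ends f).2) {u v : V}
    (h : conn ends (B ∪ D) u v) : ∃ Z ⊆ D, Z.card ≤ 2 ∧ conn ends (B ∪ Z) u v := by
  rcases star_conn hD h with h | ⟨⟨Z, hZ, hc, h1⟩, ⟨Z', hZ', hc', h2⟩⟩
  · exact ⟨∅, Finset.empty_subset _, by simp, by simpa using h⟩
  · refine ⟨Z ∪ Z', Finset.union_subset hZ hZ', ?_, ?_⟩
    · exact (Finset.card_union_le _ _).trans (by omega)
    · have h1' := conn_mono (B := B ∪ (Z ∪ Z'))
        (Finset.union_subset_union_right Finset.subset_union_left) h1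
      have h2' := conn_mono (B := B ∪ (Z ∪ Z'))
        (Finset.union_subset_union_right Finset.subset_union_right) h2
      exact conn_trans (conn_symm h1') h2'

lemma star_conn_one {B D : Finset E} {x : V}
    (hD : ∀ f ∈ D, conn ends B x (ends f).1 ∨ conn ends B x (ends f).2) {v : V}
    (h : conn ends (B ∪ D) x v) : ∃ Z ⊆ D, Z.card ≤ 1 ∧ conn ends (B ∪ Z) x v := by
  rcases star_conn hD h with h | ⟨_, h2⟩
  · exact ⟨∅, Finset.empty_subset _, by simp, by simpa using h⟩
  · exact h2

omit [DecidableEq E] in
lemma out_touch {K S : Finset E} {x : V} {f : E} (hf : f ∈ out ends K S x) :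
    conn ends K x (ends f).1 ∨ conn ends K x (ends f).2 := by
  rcases (mem_out.mp hf).2 with h | h
  · exact Or.inl h.1
  · exact Or.inr h.1

/-- independence survives the contraction of a star -/
lemma ind_contract_star [Finite V] {ρ : ℕ} {K S D : Finset E} {x : V} (h : Ind ends (ρ + 2) K S)
    (hDS : D ⊆ S) (hD : ∀ f ∈ D, conn ends K x (ends f).1 ∨ conn ends K x (ends f).2) :
    Ind ends ρ (K ∪ D) (S \ D) := by
  intro T hT hc
  have hle := (isRk_rk ends).union_le (K ∪ D) T
  by_contra hne
  have hlt : rk ends (K ∪ D ∪ T) < rk ends (K ∪ D) + T.card := by omega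
  obtain ⟨C, hCT, k, hCk, hr, hr'⟩ := exists_circuit (isRk_rk ends) (K ∪ D) T.card T rfl hlt
  obtain ⟨e, he⟩ : C.Nonempty := by rw [← Finset.card_pos]; omega
  have hCc : C.card ≤ T.card := Finset.card_le_card hCT
  have hconn : conn ends (K ∪ D ∪ C.erase e) (ends e).1 (ends e).2 := by
    rw [← rk_insert_iff]
    have e1 : insert e (K ∪ D ∪ C.erase e) = K ∪ D ∪ C := by
      rw [← Finset.union_insert, Finset.insert_erase he]
    rw [e1, hr, hr' e he]
  have e2 : K ∪ D ∪ C.erase e = (K ∪ C.erase e) ∪ D := by
    rw [Finset.union_right_comm]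
  rw [e2] at hconn
  obtain ⟨Z, hZD, hZc, hZ⟩ := star_conn_two (B := K ∪ C.erase e) (x := x) (by
    intro f hf
    rcases hD f hf with h1 | h1
    · exact Or.inl (conn_mono Finset.subset_union_left h1)
    · exact Or.inr (conn_mono Finset.subset_union_left h1)) hconn
  have hCS : C ⊆ S \ D := hCT.trans hT
  have heS : e ∈ S := (Finset.mem_sdiff.mp (hCS he)).1
  have heD : e ∉ D := (Finset.mem_sdiff.mp (hCS he)).2
  have hsub : C.erase e ∪ Z ⊆ S := by
    apply Finset.union_subset
    · exact (Finset.erase_subset e C).trans (hCS.trans Finset.sdiff_subset)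
    · exact hZD.trans hDS
  have hnot : e ∉ C.erase e ∪ Z := by
    rw [Finset.mem_union]
    rintro (h1 | h1)
    · exact (Finset.notMem_erase e C) h1
    · exact heD (hZD h1)
  have hcard : (C.erase e ∪ Z).card + 1 ≤ ρ + 2 := by
    have h1 := Finset.card_union_le (C.erase e) Z
    have h2 : (C.erase e).card = k := by rw [Finset.card_erase_of_mem he, hCk]; rfl
    omega
  apply ind_not_conn h hsub heS hnot hcard
  rwa [← Finset.union_assoc]

/-- the star is independent -/
lemma star_indep [Finite V] {K S : Finset E} {x : V} (h : Ind ends 2 K S) :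
    ∀ D ⊆ out ends K S x, rk ends (K ∪ D) = rk ends K + D.card := by
  classical
  intro D
  induction D using Finset.induction_on with
  | empty => intro _; simp
  | insert e D he ih =>
    intro hD
    have hD' : D ⊆ out ends K S x := (Finset.subset_insert e D).trans hD
    have heo : e ∈ out ends K S x := hD (Finset.mem_insert_self _ _)
    have heS : e ∈ S := (mem_out.mp heo).1
    have hDS : D ⊆ S := hD'.trans out_subset
    rw [Finset.card_insert_of_notMem he, Finset.union_insert]
    have hnc : ¬ conn ends (K ∪ D) (ends e).1 (ends e).2 := by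
      intro hcn
      have hZ : ∃ Z ⊆ D, Z.card ≤ 1 ∧ conn ends (K ∪ Z) (ends e).1 (ends e).2 := by
        rcases (mem_out.mp heo).2 with h1 | h1
        · obtain ⟨Z, hZ, hc, h2⟩ := star_conn_one (B := K) (D := D) (x := x)
            (fun f hf => out_touch (hD' hf))
            (conn_trans (conn_mono Finset.subset_union_left h1.1) hcn)
          exact ⟨Z, hZ, hc, conn_trans (conn_mono Finset.subset_union_left (conn_symm h1.1)) h2⟩
        · obtain ⟨Z, hZ, hc, h2⟩ := star_conn_one (B := K) (D := D) (x := x)
            (fun f hf => out_touch (hD' hf))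
            (conn_trans (conn_mono Finset.subset_union_left h1.1) (conn_symm hcn))
          exact ⟨Z, hZ, hc, conn_symm
            (conn_trans (conn_mono Finset.subset_union_left (conn_symm h1.1)) h2)⟩
      obtain ⟨Z, hZ, hc, h2⟩ := hZ
      exact ind_not_conn h (hZ.trans hDS) heS (fun hh => he (hZ hh)) (by omega) h2
    rw [rk_insert_of_not_conn hnc, ih hD']
    omega

/-- other classes are not affected by the contraction of a star -/
lemma conn_far {K D : Finset E} {x y z : V}
    (hD : ∀ f ∈ D, conn ends K x (ends f).1 ∨ conn ends K x (ends f).2)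
    (hy : ¬ conn ends (K ∪ D) x y) :
    conn ends (K ∪ D) y z ↔ conn ends K y z := by
  constructor
  · intro h
    rcases star_conn hD h with h1 | ⟨⟨Z, hZ, _, h1⟩, _⟩
    · exact h1
    · exact absurd (conn_mono (Finset.union_subset_union_right hZ) h1) hy
  · exact conn_mono Finset.subset_union_left

lemma out_far {K S D : Finset E} {x y : V}
    (hD : ∀ f ∈ D, conn ends K x (ends f).1 ∨ conn ends K x (ends f).2)
    (hy : ¬ conn ends (K ∪ D) x y) :
    out ends (K ∪ D) (S \ D) y = out ends K S y := by
  ext f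
  rw [mem_out, mem_out, conn_far hD hy, conn_far hD hy]
  constructor
  · rintro ⟨h1, h2⟩
    exact ⟨(Finset.mem_sdiff.mp h1).1, h2⟩
  · rintro ⟨h1, h2⟩
    refine ⟨Finset.mem_sdiff.mpr ⟨h1, ?_⟩, h2⟩
    intro hfD
    -- both ends of f are in the new class of x
    have he : conn ends (K ∪ D) (ends f).1 (ends f).2 := conn_edge (Finset.mem_union_right _ hfD)
    have hb : conn ends (K ∪ D) x (ends f).1 := by
      rcases hD f hfD with h3 | h3
      · exact conn_mono Finset.subset_union_left h3
      · exact conn_trans (conn_mono Finset.subset_union_left h3) (conn_symm he)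
    rcases h2 with h4 | h4
    · exact hy (conn_trans hb (conn_mono Finset.subset_union_left (conn_symm h4.1)))
    · exact hy (conn_trans (conn_trans hb he)
        (conn_mono Finset.subset_union_left (conn_symm h4.1)))

/-- an endpoint of `e` outside of the class of `x` -/
lemma exists_far {K S : Finset E} {x : V} {e : E} (he : e ∈ out ends K S x) :
    ∃ y, ¬ conn ends K x y ∧ conn ends (K ∪ {e}) x y ∧ e ∈ out ends K S y ∧
      (∀ a, conn ends K y a → conn ends (K ∪ {e}) x a) ∧
      (∀ f, (conn ends K x (ends f).1 ∧ conn ends K y (ends f).2) ∨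
        (conn ends K x (ends f).2 ∧ conn ends K y (ends f).1) →
        conn ends (K ∪ {e}) (ends f).1 (ends f).2) := by
  have hedge : conn ends (K ∪ {e}) (ends e).1 (ends e).2 :=
    conn_edge (Finset.mem_union_right _ (Finset.mem_singleton_self e))
  obtain ⟨heS, h | h⟩ := mem_out.mp he
  · have hxy : conn ends (K ∪ {e}) x (ends e).2 :=
      conn_trans (conn_mono Finset.subset_union_left h.1) hedge
    refine ⟨(ends e).2, h.2, hxy, ?_, ?_, ?_⟩
    · rw [mem_out]
      refine ⟨heS, Or.inr ⟨conn_refl _ _, fun hh => h.2 (conn_trans h.1 (conn_symm hh))⟩⟩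
    · intro a ha
      exact conn_trans hxy (conn_mono Finset.subset_union_left ha)
    · rintro f (⟨h1, h2⟩ | ⟨h1, h2⟩)
      · exact conn_trans (conn_mono Finset.subset_union_left (conn_symm h1))
          (conn_trans hxy (conn_mono Finset.subset_union_left h2))
      · exact conn_symm (conn_trans (conn_mono Finset.subset_union_left (conn_symm h1))
          (conn_trans hxy (conn_mono Finset.subset_union_left h2)))
  · have hxy : conn ends (K ∪ {e}) x (ends e).1 :=
      conn_trans (conn_mono Finset.subset_union_left h.1) (conn_symm hedge)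
    refine ⟨(ends e).1, h.2, hxy, ?_, ?_, ?_⟩
    · rw [mem_out]
      refine ⟨heS, Or.inl ⟨conn_refl _ _, fun hh => h.2 (conn_trans h.1 (conn_symm hh))⟩⟩
    · intro a ha
      exact conn_trans hxy (conn_mono Finset.subset_union_left ha)
    · rintro f (⟨h1, h2⟩ | ⟨h1, h2⟩)
      · exact conn_trans (conn_mono Finset.subset_union_left (conn_symm h1))
          (conn_trans hxy (conn_mono Finset.subset_union_left h2))
      · exact conn_symm (conn_trans (conn_mono Finset.subset_union_left (conn_symm h1))
          (conn_trans hxy (conn_mono Finset.subset_union_left h2)))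

/-- growth of the degree of the root -/
lemma out_growth [Finite V] {K S : Finset E} {x : V} (h : Ind ends 3 K S)
    (hdeg : ∀ y, ¬ conn ends K x y → (out ends K S y).Nonempty → 3 ≤ (out ends K S y).card) :
    2 * (out ends K S x).card ≤
      (out ends (K ∪ out ends K S x) (S \ out ends K S x) x).card := by
  classical
  set D := out ends K S x with hDdef
  have hDS : D ⊆ S := by rw [hDdef]; exact out_subset
  have htouch : ∀ f ∈ D, conn ends K x (ends f).1 ∨ conn ends K x (ends f).2 :=
    fun f hf => out_touch hf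
  have : Nonempty V := ⟨x⟩
  choose! y hy1 hy2 hy3 hy4 hy5 using (fun e (he : e ∈ D) => exists_far he)
  -- the new neighbours
  have hmain : ∀ e ∈ D, ∀ f ∈ (out ends K S (y e)).erase e, f ∉ D ∧
      f ∈ out ends (K ∪ D) (S \ D) x := by
    intro e he f hf
    have hfe : f ≠ e := Finset.ne_of_mem_erase hf
    have hfo := Finset.mem_of_mem_erase hf
    have hfS : f ∈ S := (mem_out.mp hfo).1
    have heS : e ∈ S := hDS he
    have hfD : f ∉ D := by
      intro hfD
      have h1 : (conn ends K x (ends f).1 ∧ conn ends K (y e) (ends f).2) ∨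
        (conn ends K x (ends f).2 ∧ conn ends K (y e) (ends f).1) := by
        rcases (mem_out.mp hfo).2 with h1 | h1 <;> rcases (mem_out.mp hfD).2 with h2 | h2
        · exact absurd (conn_trans h2.1 (conn_symm h1.1)) (hy1 e he)
        · exact Or.inr ⟨h2.1, h1.1⟩
        · exact Or.inl ⟨h2.1, h1.1⟩
        · exact absurd (conn_trans h2.1 (conn_symm h1.1)) (hy1 e he)
      exact ind_not_conn h (Finset.singleton_subset_iff.mpr heS) hfS
        (by rw [Finset.mem_singleton]; exact hfe) (by simp) (hy5 e he f h1)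
    refine ⟨hfD, ?_⟩
    -- general statement: an endpoint in class of y e, other endpoint not reachable
    have hKx : ∀ a, conn ends K (y e) a → conn ends (K ∪ D) x a := by
      intro a ha
      exact conn_mono (Finset.union_subset_union_right (Finset.singleton_subset_iff.mpr he))
        (hy4 e he a ha)
    have hno : ∀ a b, conn ends K (y e) a →
        ((a, b) = ((ends f).1, (ends f).2) ∨ (a, b) = ((ends f).2, (ends f).1)) →
        ¬ conn ends (K ∪ D) x b := by
      intro a b ha hab hxb
      obtain ⟨Z, hZ, hZc, h1⟩ := star_conn_one htouch hxb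
      have h2 : conn ends (K ∪ ({e} ∪ Z)) a b := by
        have h3 : conn ends (K ∪ ({e} ∪ Z)) x a :=
          conn_mono (Finset.union_subset_union_right Finset.subset_union_left) (hy4 e he a ha)
        have h4 : conn ends (K ∪ ({e} ∪ Z)) x b :=
          conn_mono (Finset.union_subset_union_right Finset.subset_union_right) h1
        exact conn_trans (conn_symm h3) h4
      have h5 : conn ends (K ∪ ({e} ∪ Z)) (ends f).1 (ends f).2 := by
        rcases hab with hab | hab
        · rw [Prod.mk.injEq] at hab
          rw [← hab.1, ← hab.2]; exact h2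
        · rw [Prod.mk.injEq] at hab
          rw [← hab.1, ← hab.2]; exact conn_symm h2
      refine ind_not_conn h (T := {e} ∪ Z) ?_ hfS ?_ ?_ h5
      · exact Finset.union_subset (Finset.singleton_subset_iff.mpr heS) (hZ.trans hDS)
      · rw [Finset.mem_union, Finset.mem_singleton]
        rintro (h6 | h6)
        · exact hfe h6
        · exact hfD (hZ h6)
      · have := Finset.card_union_le {e} Z
        rw [Finset.card_singleton] at this
        omega
    rw [mem_out]
    refine ⟨Finset.mem_sdiff.mpr ⟨hfS, hfD⟩, ?_⟩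
    rcases (mem_out.mp hfo).2 with h1 | h1
    · exact Or.inl ⟨hKx _ h1.1, hno _ _ h1.1 (Or.inl rfl)⟩
    · exact Or.inr ⟨hKx _ h1.1, hno _ _ h1.1 (Or.inr rfl)⟩
  -- disjointness
  have hdisj : ∀ e ∈ D, ∀ e' ∈ D, e ≠ e' →
      Disjoint ((out ends K S (y e)).erase e) ((out ends K S (y e')).erase e') := by
    intro e he e' he' hee'
    rw [Finset.disjoint_left]
    intro f hf hf'
    have hfo := Finset.mem_of_mem_erase hf
    have hfo' := Finset.mem_of_mem_erase hf'
    have hnew := (mem_out.mp (hmain e he f hf).2).2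
    have hyy : ¬ conn ends K (y e) (y e') := by
      intro hh
      -- then e, e' are parallel
      have h1 : conn ends (K ∪ {e}) (ends e').1 (ends e').2 := by
        apply hy5 e he
        have h3 := (mem_out.mp (hy3 e' he')).2
        have h4 := (mem_out.mp he').2
        rcases h3 with h3 | h3 <;> rcases h4 with h4 | h4
        · exact absurd (conn_trans h4.1 (conn_symm h3.1)) (hy1 e' he')
        · exact Or.inr ⟨h4.1, conn_trans hh h3.1⟩
        · exact Or.inl ⟨h4.1, conn_trans hh h3.1⟩
        · exact absurd (conn_trans h4.1 (conn_symm h3.1)) (hy1 e' he')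
      exact ind_not_conn h (Finset.singleton_subset_iff.mpr (hDS he)) (hDS he')
        (by rw [Finset.mem_singleton]; exact fun hh => hee' hh.symm) (by simp) h1
    have hKx : ∀ e ∈ D, ∀ a, conn ends K (y e) a → conn ends (K ∪ D) x a := by
      intro e he a ha
      exact conn_mono (Finset.union_subset_union_right (Finset.singleton_subset_iff.mpr he))
        (hy4 e he a ha)
    rcases (mem_out.mp hfo).2 with h1 | h1 <;> rcases (mem_out.mp hfo').2 with h2 | h2
    · exact hyy (conn_trans h1.1 (conn_symm h2.1))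
    · have h3 := hKx e he _ h1.1
      have h4 := hKx e' he' _ h2.1
      rcases hnew with h5 | h5
      · exact h5.2 h4
      · exact h5.2 h3
    · have h3 := hKx e he _ h1.1
      have h4 := hKx e' he' _ h2.1
      rcases hnew with h5 | h5
      · exact h5.2 h3
      · exact h5.2 h4
    · exact hyy (conn_trans h1.1 (conn_symm h2.1))
  have hsub : D.biUnion (fun e => (out ends K S (y e)).erase e) ⊆
      out ends (K ∪ D) (S \ D) x := by
    intro f hf
    rw [Finset.mem_biUnion] at hf
    obtain ⟨e, he, hf⟩ := hf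
    exact (hmain e he f hf).2
  have hcard := Finset.card_le_card hsub
  rw [Finset.card_biUnion hdisj] at hcard
  refine le_trans ?_ hcard
  rw [mul_comm, ← smul_eq_mul]
  apply Finset.card_nsmul_le_sum
  intro e he
  have h1 := hdeg (y e) (hy1 e he) ⟨e, hy3 e he⟩
  rw [Finset.card_erase_of_mem (hy3 e he)]
  omega

/-- the Moore bound -/
theorem moore [Finite V] : ∀ (ρ : ℕ) (K S : Finset E) (x : V), Ind ends (2 * ρ) K S →
    (∀ y, ¬ conn ends K x y → (out ends K S y).Nonempty → 3 ≤ (out ends K S y).card) →
    rk ends K + (out ends K S x).card * (2 ^ ρ - 1) ≤ rk ends (K ∪ S) := by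
  intro ρ
  induction ρ with
  | zero =>
    intro K S x _ _
    have := (isRk_rk ends).mono (Finset.subset_union_left (s₁ := K) (s₂ := S))
    simpa using this
  | succ ρ ih =>
    intro K S x hind hdeg
    set D := out ends K S x with hDdef
    have hDS : D ⊆ S := by rw [hDdef]; exact out_subset
    have htouch : ∀ f ∈ D, conn ends K x (ends f).1 ∨ conn ends K x (ends f).2 :=
      fun f hf => out_touch hf
    have hind2 : Ind ends 2 K S := fun T hT hc => hind T hT (by omega)
    have hr := star_indep hind2 D (Finset.Subset.refl _)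
    have hU : K ∪ D ∪ (S \ D) = K ∪ S := by
      rw [Finset.union_assoc, Finset.union_sdiff_of_subset hDS]
    have hind' : Ind ends (2 * ρ) (K ∪ D) (S \ D) :=
      ind_contract_star (ρ := 2 * ρ) (by simpa [mul_add] using hind) hDS htouch
    have hdeg' : ∀ y, ¬ conn ends (K ∪ D) x y → (out ends (K ∪ D) (S \ D) y).Nonempty →
        3 ≤ (out ends (K ∪ D) (S \ D) y).card := by
      intro y hy hne
      rw [out_far htouch hy] at hne ⊢
      exact hdeg y (fun hh => hy (conn_mono Finset.subset_union_left hh)) hne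
    have h1 := ih (K ∪ D) (S \ D) x hind' hdeg'
    rw [hU, hr] at h1
    rcases Nat.eq_zero_or_pos ρ with rfl | hρ
    · simp at h1 ⊢
      omega
    · have h2 := out_growth (K := K) (S := S) (x := x)
        (fun T hT hc => hind T hT (by omega)) hdeg
      rw [← hDdef] at h2
      have h3 : 1 ≤ 2 ^ ρ := Nat.one_le_two_pow
      have h4 : 2 * D.card * (2 ^ ρ - 1) ≤
        (out ends (K ∪ D) (S \ D) x).card * (2 ^ ρ - 1) := Nat.mul_le_mul_right _ h2
      have h5 : D.card * (2 ^ (ρ + 1) - 1) = 2 * D.card * (2 ^ ρ - 1) + D.card := by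
        obtain ⟨m, hm⟩ : ∃ m, 2 ^ ρ = m + 1 := ⟨2 ^ ρ - 1, by omega⟩
        have h6 : 2 ^ (ρ + 1) - 1 = 2 * m + 1 := by rw [pow_succ, hm]; omega
        rw [h6, hm, Nat.add_sub_cancel]
        ring
      omega

end Pool.Agent.H313R2.FL
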