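import Mathlib
import Pool.Agent.H313R2.FL.Moore

set_option autoImplicit false

namespace Pool.Agent.H313R2.FL

variable {V E : Type*} [DecidableEq E] {ends : E → V × V}

/-- in a loopless cosimple minor, every class met by `S` has at least three edges leaving it -/
lemma deg_three [Finite V] {K S : Finset E}
    (hcs : ∀ e ∈ S, ∀ f ∈ S, rk ends (K ∪ (S.erase e).erase f) = rk ends (K ∪ S))
    (y : V) (hne : (out ends K S y).Nonempty) : 3 ≤ (out ends K S y).card := by
  classical
  by_contra hlt
  push Not at hlt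
  obtain ⟨e, he⟩ := hne
  have heS := out_subset he
  -- choose f with out ⊆ {e, f}
  obtain ⟨f, hfS, hsub⟩ : ∃ f ∈ S, out ends K S y ⊆ {e, f} := by
    rcases ((out ends K S y).erase e).eq_empty_or_nonempty with h0 | ⟨f, hf⟩
    · refine ⟨e, heS, fun g hg => ?_⟩
      by_contra hg'
      simp only [Finset.mem_insert, Finset.mem_singleton, or_self] at hg'
      have : g ∈ (out ends K S y).erase e := Finset.mem_erase.mpr ⟨hg', hg⟩
      rw [h0] at this
      simp at this
    · refine ⟨f, out_subset (Finset.mem_of_mem_erase hf), fun g hg => ?_⟩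
      by_contra hg'
      simp only [Finset.mem_insert, Finset.mem_singleton, not_or] at hg'
      have h3 : ({e, f, g} : Finset E) ⊆ out ends K S y := by
        intro t ht
        simp only [Finset.mem_insert, Finset.mem_singleton] at ht
        rcases ht with rfl | rfl | rfl
        · exact he
        · exact Finset.mem_of_mem_erase hf
        · exact hg
      have h4 : ({e, f, g} : Finset E).card = 3 := by
        rw [Finset.card_eq_three]
        exact ⟨e, f, g, (Finset.ne_of_mem_erase hf).symm, fun h => hg'.1 h.symm,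
          fun h => hg'.2 h.symm, rfl⟩
      have := Finset.card_le_card h3
      omega
  have hconn : conn ends (K ∪ (S.erase e).erase f) (ends e).1 (ends e).2 := by
    apply conn_of_rk_eq (B := K ∪ S)
    · exact Finset.union_subset_union_right
        ((Finset.erase_subset _ _).trans (Finset.erase_subset _ _))
    · exact hcs e heS f hfS
    · exact conn_edge (Finset.mem_union_right _ heS)
  have hR : conn ends K y (ends e).1 ↔ conn ends K y (ends e).2 := by
    refine conn_le (ends := ends) (A := K ∪ (S.erase e).erase f)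
      (fun u v => conn ends K y u ↔ conn ends K y v) (fun _ => Iff.rfl)
      (fun _ _ h => h.symm) (fun _ _ _ h h' => h.trans h') ?_ hconn
    intro g hg
    rcases Finset.mem_union.mp hg with hg | hg
    · have := conn_edge (ends := ends) hg
      exact ⟨fun h => conn_trans h this, fun h => conn_trans h (conn_symm this)⟩
    · have hgf : g ≠ f := Finset.ne_of_mem_erase hg
      have hge : g ≠ e := Finset.ne_of_mem_erase (Finset.mem_of_mem_erase hg)
      have hgS : g ∈ S := Finset.mem_of_mem_erase (Finset.mem_of_mem_erase hg)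
      have hgo : g ∉ out ends K S y := by
        intro h
        have := hsub h
        simp only [Finset.mem_insert, Finset.mem_singleton] at this
        tauto
      rw [mem_out] at hgo
      tauto
  rcases (mem_out.mp he).2 with h | h
  · exact h.2 (hR.mp h.1)
  · exact h.2 (hR.mpr h.1)

/-- contracting one edge lowers the girth by at most one -/
lemma ind_contract_edge [Finite V] {ρ : ℕ} {K S : Finset E} {e : E}
    (h : Ind ends (ρ + 1) K S) (he : e ∈ S) :
    Ind ends ρ (K ∪ {e}) (S \ {e}) := by
  intro T hT hc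
  have heT : e ∉ T := fun hh => (Finset.mem_sdiff.mp (hT hh)).2 (Finset.mem_singleton_self e)
  have hTS : T ⊆ S := hT.trans Finset.sdiff_subset
  have h1 := h (insert e T) (Finset.insert_subset he hTS) (by
    rw [Finset.card_insert_of_notMem heT]; omega)
  have h2 := h {e} (Finset.singleton_subset_iff.mpr he) (by simp)
  rw [Finset.card_insert_of_notMem heT] at h1
  rw [Finset.card_singleton] at h2
  have e1 : K ∪ {e} ∪ T = K ∪ insert e T := by
    rw [Finset.union_assoc, Finset.insert_eq]
  rw [e1, h1, h2]
  omega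

/-- contracting one edge gives a root of degree four -/
lemma out_edge [Finite V] {K S : Finset E} {x : V} {e : E} (h : Ind ends 2 K S)
    (he : e ∈ out ends K S x)
    (hdeg : ∀ y, (out ends K S y).Nonempty → 3 ≤ (out ends K S y).card) :
    4 ≤ (out ends (K ∪ {e}) (S \ {e}) x).card := by
  classical
  obtain ⟨y, hy1, hy2, hy3, hy4, hy5⟩ := exists_far he
  have heS := out_subset he
  have hpar : ∀ f ∈ S, f ≠ e → ¬ conn ends (K ∪ {e}) (ends f).1 (ends f).2 := by
    intro f hf hfe
    exact ind_not_conn h (Finset.singleton_subset_iff.mpr heS) hf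
      (by rw [Finset.mem_singleton]; exact hfe) (by simp)
  have hsub1 : (out ends K S x).erase e ⊆ out ends (K ∪ {e}) (S \ {e}) x := by
    intro f hf
    have hfe := Finset.ne_of_mem_erase hf
    have hfo := Finset.mem_of_mem_erase hf
    have hfS := out_subset hfo
    have hn := hpar f hfS hfe
    rw [mem_out]
    refine ⟨Finset.mem_sdiff.mpr ⟨hfS, by rw [Finset.mem_singleton]; exact hfe⟩, ?_⟩
    rcases (mem_out.mp hfo).2 with h1 | h1
    · have h2 := conn_mono (Finset.subset_union_left (s₂ := {e})) h1.1
      exact Or.inl ⟨h2, fun hh => hn (conn_trans (conn_symm h2) hh)⟩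
    · have h2 := conn_mono (Finset.subset_union_left (s₂ := {e})) h1.1
      exact Or.inr ⟨h2, fun hh => hn (conn_trans (conn_symm hh) h2)⟩
  have hsub2 : (out ends K S y).erase e ⊆ out ends (K ∪ {e}) (S \ {e}) x := by
    intro f hf
    have hfe := Finset.ne_of_mem_erase hf
    have hfo := Finset.mem_of_mem_erase hf
    have hfS := out_subset hfo
    have hn := hpar f hfS hfe
    rw [mem_out]
    refine ⟨Finset.mem_sdiff.mpr ⟨hfS, by rw [Finset.mem_singleton]; exact hfe⟩, ?_⟩
    rcases (mem_out.mp hfo).2 with h1 | h1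
    · have h2 := hy4 _ h1.1
      exact Or.inl ⟨h2, fun hh => hn (conn_trans (conn_symm h2) hh)⟩
    · have h2 := hy4 _ h1.1
      exact Or.inr ⟨h2, fun hh => hn (conn_trans (conn_symm hh) h2)⟩
  have hdis : Disjoint ((out ends K S x).erase e) ((out ends K S y).erase e) := by
    rw [Finset.disjoint_left]
    intro f hf hf'
    have hfe := Finset.ne_of_mem_erase hf
    have hfo := Finset.mem_of_mem_erase hf
    have hfo' := Finset.mem_of_mem_erase hf'
    have hn := hpar f (out_subset hfo) hfe
    rcases (mem_out.mp hfo).2 with h1 | h1 <;> rcases (mem_out.mp hfo').2 with h2 | h2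
    · exact hy1 (conn_trans h1.1 (conn_symm h2.1))
    · exact hn (hy5 f (Or.inl ⟨h1.1, h2.1⟩))
    · exact hn (hy5 f (Or.inr ⟨h1.1, h2.1⟩))
    · exact hy1 (conn_trans h1.1 (conn_symm h2.1))
  have h1 := Finset.card_le_card (Finset.union_subset hsub1 hsub2)
  rw [Finset.card_union_of_disjoint hdis, Finset.card_erase_of_mem he,
    Finset.card_erase_of_mem hy3] at h1
  have h2 := hdeg x ⟨e, he⟩
  have h3 := hdeg y ⟨e, hy3⟩
  omega

omit [DecidableEq E] in
lemma cc_pos [Finite V] (K : Finset E) (x : V) : 0 < cc ends K := by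
  unfold cc
  have : Finite (gr ends K).ConnectedComponent := Quot.finite _
  have : Nonempty (gr ends K).ConnectedComponent := ⟨(gr ends K).connectedComponentMk x⟩
  exact Nat.card_pos

/-- the girth bound: a loopless cosimple minor of rank `R` has a dependent set
`T` with `4 * 2 ^ |T| ≤ (R + 3) ^ 2` -/
lemma girth_bound [Finite V] {K S : Finset E} (hne : S.Nonempty)
    (hl : ∀ e ∈ S, rk ends (insert e K) = rk ends K + 1)
    (hcs : ∀ e ∈ S, ∀ f ∈ S, rk ends (K ∪ (S.erase e).erase f) = rk ends (K ∪ S)) :
    ∃ T ⊆ S, 4 * 2 ^ T.card ≤ (rk ends (K ∪ S) - rk ends K + 3) ^ 2 ∧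
      rk ends (K ∪ T) < rk ends K + T.card := by
  classical
  obtain ⟨e, he⟩ := hne
  have hrkr := isRk_rk (V := V) ends
  have hex : ∃ g : ℕ, ∃ T ⊆ S, T.card = g ∧ rk ends (K ∪ T) < rk ends K + T.card := by
    refine ⟨S.card, S, Finset.Subset.refl _, rfl, ?_⟩
    have h1 := hcs e he e he
    rw [Finset.erase_idem] at h1
    have h2 := hrkr.union_le K (S.erase e)
    rw [Finset.card_erase_of_mem he] at h2
    have h3 : 0 < S.card := Finset.card_pos.mpr ⟨e, he⟩
    omega
  have hmin : ∀ m, m < Nat.find hex → ¬ ∃ T ⊆ S, T.card = m ∧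
      rk ends (K ∪ T) < rk ends K + T.card := fun m hm => Nat.find_min hex hm
  obtain ⟨T, hTS, hTg, hTd⟩ := Nat.find_spec hex
  refine ⟨T, hTS, ?_, hTd⟩
  rw [hTg]
  set g := Nat.find hex with hg
  have hind : ∀ ρ, ρ + 1 ≤ g → Ind ends ρ K S := by
    intro ρ hρ T' hT' hc
    have h1 := hrkr.union_le K T'
    by_contra hne'
    exact hmin T'.card (by omega) ⟨T', hT', rfl, by omega⟩
  have hdeg : ∀ y, (out ends K S y).Nonempty → 3 ≤ (out ends K S y).card :=
    fun y hy => deg_three hcs y hy
  have hg0 : 0 < g := by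
    rw [← hTg, Finset.card_pos]
    by_contra h0
    rw [Finset.not_nonempty_iff_eq_empty] at h0
    subst h0
    simp at hTd
  have hnc : ¬ conn ends K (ends e).1 (ends e).2 := rk_insert_iff'.mp (hl e he)
  have heo : e ∈ out ends K S (ends e).1 := mem_out.mpr ⟨he, Or.inl ⟨conn_refl _ _, hnc⟩⟩
  have hmonoR : rk ends K ≤ rk ends (K ∪ S) := hrkr.mono Finset.subset_union_left
  obtain ⟨R, hR⟩ := Nat.exists_eq_add_of_le hmonoR
  have hR' : rk ends (K ∪ S) - rk ends K = R := by omega
  rw [hR']
  obtain ⟨ρ, hρ | hρ⟩ : ∃ ρ, g = 2 * ρ + 1 ∨ g = 2 * ρ + 2 := by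
    obtain ⟨m, hm⟩ := Nat.exists_eq_add_of_le' hg0
    rcases Nat.even_or_odd' m with ⟨ρ, h | h⟩
    · exact ⟨ρ, Or.inl (by omega)⟩
    · exact ⟨ρ, Or.inr (by omega)⟩
  · -- odd girth
    have h1 := moore ρ K S (ends e).1 (hind _ (by omega)) (fun y _ hy => hdeg y hy)
    have h2 := hdeg _ ⟨e, heo⟩
    have h3 : 1 ≤ 2 ^ ρ := Nat.one_le_two_pow
    have h4 : 3 * (2 ^ ρ - 1) ≤ (out ends K S (ends e).1).card * (2 ^ ρ - 1) :=
      Nat.mul_le_mul_right _ h2
    have h5 : 3 * 2 ^ ρ ≤ R + 3 := by omega
    rw [hρ]
    calc 4 * 2 ^ (2 * ρ + 1) = 8 * (2 ^ ρ) ^ 2 := by rw [pow_succ, pow_mul']; ring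
      _ ≤ (3 * 2 ^ ρ) ^ 2 := by nlinarith
      _ ≤ (R + 3) ^ 2 := Nat.pow_le_pow_left h5 2
  · -- even girth
    have hk : rk ends (K ∪ {e}) = rk ends K + 1 := by
      have := hl e he
      rwa [Finset.insert_eq, Finset.union_comm] at this
    have hk1 : Ind ends (2 * ρ) (K ∪ {e}) (S \ {e}) := ind_contract_edge (hind _ (by omega)) he
    have htouch : ∀ f ∈ ({e} : Finset E), conn ends K (ends e).1 (ends f).1 ∨
        conn ends K (ends e).1 (ends f).2 := by
      intro f hf
      rw [Finset.mem_singleton] at hf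
      subst hf
      exact Or.inl (conn_refl _ _)
    have hU : K ∪ {e} ∪ (S \ {e}) = K ∪ S := by
      rw [Finset.union_assoc, Finset.union_sdiff_of_subset (Finset.singleton_subset_iff.mpr he)]
    have hmain : 4 * 2 ^ ρ ≤ R + 3 := by
      rcases Nat.eq_zero_or_pos ρ with h0 | hpos
      · have h1 := hrkr.mono (A := K ∪ {e}) (B := K ∪ S)
          (Finset.union_subset_union_right (Finset.singleton_subset_iff.mpr he))
        rw [h0]
        simp
        omega
      · have h1 := moore ρ (K ∪ {e}) (S \ {e}) (ends e).1 hk1 (by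
          intro y hy hyn
          rw [out_far htouch hy] at hyn ⊢
          exact hdeg y hyn)
        rw [hU] at h1
        have h2 := out_edge (x := (ends e).1) (hind 2 (by omega)) heo hdeg
        have h3 : 1 ≤ 2 ^ ρ := Nat.one_le_two_pow
        have h4 : 4 * (2 ^ ρ - 1) ≤
          (out ends (K ∪ {e}) (S \ {e}) (ends e).1).card * (2 ^ ρ - 1) :=
            Nat.mul_le_mul_right _ h2
        omega
    rw [hρ]
    calc 4 * 2 ^ (2 * ρ + 2) = (4 * 2 ^ ρ) ^ 2 := by rw [pow_succ, pow_succ, pow_mul']; ring
      _ ≤ (R + 3) ^ 2 := Nat.pow_le_pow_left hmain 2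

/-- the rank of a nonempty minor is less than the number of classes -/
lemma rank_lt [Finite V] {K S : Finset E} (x : V) :
    rk ends (K ∪ S) - rk ends K + 1 ≤ Nat.card V := by
  have h1 := cc_pos (ends := ends) (K ∪ S) x
  have h2 := cc_le (ends := ends) (K ∪ S)
  have h3 : 0 < Nat.card V := by
    have : Nonempty V := ⟨x⟩
    exact Nat.card_pos
  unfold rk
  omega

/-- handshake: `3 (R + 1) ≤ 2 |S|` -/
lemma handshake [Finite V] {K S : Finset E} (hne : S.Nonempty)
    (hl : ∀ e ∈ S, rk ends (insert e K) = rk ends K + 1)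
    (hdeg : ∀ y, (out ends K S y).Nonempty → 3 ≤ (out ends K S y).card) :
    3 * (rk ends (K ∪ S) - rk ends K + 1) ≤ 2 * S.card := by
  classical
  have : Finite (gr ends K).ConnectedComponent := Quot.finite _
  have := Fintype.ofFinite (gr ends K).ConnectedComponent
  have : Finite (gr ends (K ∪ S)).ConnectedComponent := Quot.finite _
  have := Fintype.ofFinite (gr ends (K ∪ S)).ConnectedComponent
  set rep : (gr ends K).ConnectedComponent → V := fun c => Quot.out c with hrep
  have hrep' : ∀ c, (gr ends K).connectedComponentMk (rep c) = c := fun c => Quot.out_eq c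
  set I := Finset.univ.filter (fun c => out ends K S (rep c) = ∅) with hI
  set J := Finset.univ.filter (fun c => ¬ out ends K S (rep c) = ∅) with hJ
  -- isolated classes
  have hIcard : I.card + 1 ≤ cc ends (K ∪ S) := by
    obtain ⟨e, he⟩ := hne
    have hiso : ∀ c ∈ I, ∀ z, conn ends (K ∪ S) (rep c) z → conn ends K (rep c) z := by
      intro c hc z hz
      rw [hI, Finset.mem_filter] at hc
      have hR : conn ends K (rep c) (rep c) ↔ conn ends K (rep c) z := by
        refine conn_le (ends := ends) (A := K ∪ S)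
          (fun u v => conn ends K (rep c) u ↔ conn ends K (rep c) v) (fun _ => Iff.rfl)
          (fun _ _ h => h.symm) (fun _ _ _ h h' => h.trans h') ?_ hz
        intro g hg
        rcases Finset.mem_union.mp hg with hg | hg
        · have := conn_edge (ends := ends) hg
          exact ⟨fun h => conn_trans h this, fun h => conn_trans h (conn_symm this)⟩
        · have hgo : g ∉ out ends K S (rep c) := by rw [hc.2]; simp
          rw [mem_out] at hgo
          tauto
      exact hR.mp (conn_refl _ _)
    have hmap : (I.image (fun c => (gr ends (K ∪ S)).connectedComponentMk (rep c))).card = I.card := by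
      apply Finset.card_image_of_injOn
      intro c hc c' hc' hcc'
      have h1 : conn ends (K ∪ S) (rep c) (rep c') := SimpleGraph.ConnectedComponent.eq.mp hcc'
      have h2 := hiso c hc _ h1
      rw [← hrep' c, ← hrep' c']
      exact SimpleGraph.ConnectedComponent.eq.mpr h2
    have hnot : (gr ends (K ∪ S)).connectedComponentMk (ends e).1 ∉
        I.image (fun c => (gr ends (K ∪ S)).connectedComponentMk (rep c)) := by
      intro h
      rw [Finset.mem_image] at h
      obtain ⟨c, hc, h⟩ := h
      have h1 : conn ends (K ∪ S) (rep c) (ends e).1 := SimpleGraph.ConnectedComponent.eq.mp h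
      have h2 := hiso c hc _ h1
      have h3 : conn ends (K ∪ S) (rep c) (ends e).2 :=
        conn_trans h1 (conn_edge (Finset.mem_union_right _ he))
      have h4 := hiso c hc _ h3
      have h5 := rk_insert_iff'.mp (hl e he)
      exact h5 (conn_trans (conn_symm h2) h4)
    have h6 := Finset.card_insert_of_notMem hnot
    rw [hmap] at h6
    rw [← h6]
    unfold cc
    rw [Nat.card_eq_fintype_card]
    exact Finset.card_le_univ _
  have hIJ : I.card + J.card = cc ends K := by
    unfold cc
    rw [Nat.card_eq_fintype_card, hI, hJ, Finset.card_filter_add_card_filter_not]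
    rfl
  have hJR : rk ends (K ∪ S) - rk ends K + 1 ≤ J.card := by
    have h1 := cc_le (ends := ends) (K ∪ S)
    have h2 := cc_le (ends := ends) K
    have h3 := (isRk_rk (V := V) ends).mono (Finset.subset_union_left (s₁ := K) (s₂ := S))
    unfold rk at h3 ⊢
    omega
  -- double counting
  have hsum1 : 3 * J.card ≤ ∑ c ∈ J, (out ends K S (rep c)).card := by
    rw [mul_comm, ← smul_eq_mul]
    apply Finset.card_nsmul_le_sum
    intro c hc
    rw [hJ, Finset.mem_filter] at hc
    exact hdeg _ (Finset.nonempty_iff_ne_empty.mpr hc.2)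
  have hsum2 : ∑ c ∈ J, (out ends K S (rep c)).card ≤ 2 * S.card := by
    have h1 : ∀ c ∈ J, (out ends K S (rep c)).card =
        ∑ f ∈ S, if f ∈ out ends K S (rep c) then 1 else 0 := by
      intro c _
      rw [Finset.card_eq_sum_ones, ← Finset.sum_filter]
      congr 1
      ext f
      rw [Finset.mem_filter]
      exact ⟨fun h => ⟨out_subset h, h⟩, fun h => h.2⟩
    rw [Finset.sum_congr rfl h1, Finset.sum_comm, mul_comm, ← smul_eq_mul]
    apply Finset.sum_le_card_nsmul
    intro f _
    rw [← Finset.sum_filter, ← Finset.card_eq_sum_ones]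
    have hsub : J.filter (fun c => f ∈ out ends K S (rep c)) ⊆
        {(gr ends K).connectedComponentMk (ends f).1,
          (gr ends K).connectedComponentMk (ends f).2} := by
      intro c hc
      rw [Finset.mem_filter] at hc
      rw [Finset.mem_insert, Finset.mem_singleton]
      rcases (mem_out.mp hc.2).2 with h | h
      · left
        rw [← hrep' c]
        exact SimpleGraph.ConnectedComponent.eq.mpr h.1
      · right
        rw [← hrep' c]
        exact SimpleGraph.ConnectedComponent.eq.mpr h.1
    exact (Finset.card_le_card hsub).trans Finset.card_le_two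
  omega

/-- both girth conditions -/
theorem gc_log [Finite V] [Fintype E] (ends : E → V × V) (q : ℝ)
    (hq : (4 : ℝ) * 2 ^ q > ((Nat.card V : ℝ) + 2) ^ 2 ∨
      (2 : ℝ) ^ q > ((Fintype.card E - rk ends Finset.univ : ℕ) : ℝ) ^ 2) :
    GC (rk ends) q := by
  intro K S hKS hne hl hcs
  obtain ⟨T, hTS, hT, hTd⟩ := girth_bound hne hl hcs
  refine ⟨T, hTS, ?_, hTd⟩
  have hrkr := isRk_rk (V := V) ends
  obtain ⟨e, he⟩ := hne
  have h2 : (2 : ℝ) ^ ((T.card : ℕ) : ℝ) < 2 ^ q := by
    rw [Real.rpow_natCast]
    rcases hq with hq | hq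
    · have h1 := rank_lt (ends := ends) (K := K) (S := S) (ends e).1
      have h3 : 4 * 2 ^ T.card ≤ (Nat.card V + 2) ^ 2 :=
        hT.trans (Nat.pow_le_pow_left (by omega) 2)
      have h4 : (4 : ℝ) * 2 ^ T.card ≤ ((Nat.card V : ℝ) + 2) ^ 2 := by exact_mod_cast h3
      linarith
    · have h1 := handshake (ends := ends) (K := K) ⟨e, he⟩ hl (fun y hy => deg_three hcs y hy)
      have h5 : S.card - (rk ends (K ∪ S) - rk ends K) ≤
          Fintype.card E - rk ends Finset.univ := by
        have h6 := hrkr.union_le (K ∪ S) (Finset.univ \ (K ∪ S))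
        rw [Finset.union_sdiff_of_subset (Finset.subset_univ _),
          Finset.card_sdiff_of_subset (Finset.subset_univ _), Finset.card_univ,
          Finset.card_union_of_disjoint hKS] at h6
        have h7 := hrkr.union_le ∅ K
        rw [Finset.empty_union, rk_empty] at h7
        have h8 : (K ∪ S).card ≤ Fintype.card E := Finset.card_le_univ _
        rw [Finset.card_union_of_disjoint hKS] at h8
        have h9 := hrkr.union_le K S
        have h10 := hrkr.mono (A := K) (B := K ∪ S) Finset.subset_union_left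
        omega
      have h9 := hrkr.union_le K S
      have h3 : 4 * 2 ^ T.card ≤ (2 * (Fintype.card E - rk ends Finset.univ)) ^ 2 :=
        hT.trans (Nat.pow_le_pow_left (by omega) 2)
      have h4 : (4 : ℝ) * 2 ^ T.card ≤
          (2 * ((Fintype.card E - rk ends Finset.univ : ℕ) : ℝ)) ^ 2 := by exact_mod_cast h3
      nlinarith
  exact (Real.rpow_lt_rpow_left_iff (by norm_num)).mp h2

end Pool.Agent.H313R2.FL
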