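import Mathlib
import Pool.Agent.H313R2.FL.Log

set_option autoImplicit false

namespace Pool.Agent.H313R2.FL

variable {V E : Type*} [DecidableEq E] {ends : E → V × V}

/-- `u` and `v` are connected through `K` and at most `i` edges of `S` -/
def Nr (ends : E → V × V) (K S : Finset E) (i : ℕ) (u v : V) : Prop :=
  ∃ Z ⊆ S, Z.card ≤ i ∧ conn ends (K ∪ Z) u v

lemma Nr.symm {K S : Finset E} {i : ℕ} {u v : V} (h : Nr ends K S i u v) :
    Nr ends K S i v u := by
  obtain ⟨Z, hZ, hc, h⟩ := h
  exact ⟨Z, hZ, hc, conn_symm h⟩

lemma Nr.mono {K S : Finset E} {i j : ℕ} (hij : i ≤ j) {u v : V} (h : Nr ends K S i u v) :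
    Nr ends K S j u v := by
  obtain ⟨Z, hZ, hc, h⟩ := h
  exact ⟨Z, hZ, hc.trans hij, h⟩

lemma Nr.trans {K S : Finset E} {i j : ℕ} {u v w : V} (h : Nr ends K S i u v)
    (h' : Nr ends K S j v w) : Nr ends K S (i + j) u w := by
  obtain ⟨Z, hZ, hc, h⟩ := h
  obtain ⟨Z', hZ', hc', h'⟩ := h'
  refine ⟨Z ∪ Z', Finset.union_subset hZ hZ', (Finset.card_union_le _ _).trans (by omega), ?_⟩
  exact conn_trans (conn_mono (Finset.union_subset_union_right Finset.subset_union_left) h)
    (conn_mono (Finset.union_subset_union_right Finset.subset_union_right) h')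

lemma Nr.of_conn {K S : Finset E} {u v : V} (h : conn ends K u v) : Nr ends K S 0 u v :=
  ⟨∅, Finset.empty_subset _, by simp, by simpa using h⟩

lemma nr_zero {K S : Finset E} {u v : V} : Nr ends K S 0 u v ↔ conn ends K u v := by
  constructor
  · rintro ⟨Z, _, hc, h⟩
    have : Z = ∅ := Finset.card_eq_zero.mp (by omega)
    subst this
    simpa using h
  · exact Nr.of_conn

omit [DecidableEq E] in
lemma out_congr {K S : Finset E} {x y : V} (h : conn ends K x y) :
    out ends K S x = out ends K S y := by
  ext f
  have h1 : ∀ a, conn ends K x a ↔ conn ends K y a :=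
    fun a => ⟨fun h' => conn_trans (conn_symm h) h', fun h' => conn_trans h h'⟩
  rw [mem_out, mem_out, h1, h1]

/-- a class that is not met by `Z` is a class of `K ∪ Z` -/
lemma conn_of_out_empty {K Z : Finset E} {x z : V} (h0 : out ends K Z x = ∅)
    (h : conn ends (K ∪ Z) x z) : conn ends K x z := by
  have hR : conn ends K x x ↔ conn ends K x z := by
    refine conn_le (ends := ends) (A := K ∪ Z)
      (fun u v => conn ends K x u ↔ conn ends K x v) (fun _ => Iff.rfl)
      (fun _ _ h => h.symm) (fun _ _ _ h h' => h.trans h') ?_ h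
    intro g hg
    rcases Finset.mem_union.mp hg with hg | hg
    · have := conn_edge (ends := ends) hg
      exact ⟨fun h => conn_trans h this, fun h => conn_trans h (conn_symm this)⟩
    · have hgo : g ∉ out ends K Z x := by rw [h0]; simp
      rw [mem_out] at hgo
      tauto
  exact hR.mp (conn_refl _ _)

/-- representative of a class -/
noncomputable def rp (ends : E → V × V) (K : Finset E) (v : V) : V :=
  Quot.out ((gr ends K).connectedComponentMk v)

omit [DecidableEq E] in
lemma rp_conn {K : Finset E} (v : V) : conn ends K (rp ends K v) v :=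
  SimpleGraph.ConnectedComponent.eq.mp (Quot.out_eq _)

omit [DecidableEq E] in
lemma rp_eq {K : Finset E} {u v : V} (h : conn ends K u v) : rp ends K u = rp ends K v := by
  unfold rp
  rw [SimpleGraph.ConnectedComponent.eq.mpr h]

/-- Moore bound, local form -/
theorem moore_local [Finite V] : ∀ (ρ : ℕ) (K S : Finset E) (x : V), Ind ends (2 * ρ) K S →
    (∀ y, ¬ conn ends K x y → (out ends K S y).Nonempty → 3 ≤ (out ends K S y).card) →
    ∃ Z ⊆ S, rk ends K + (out ends K S x).card * (2 ^ ρ - 1) ≤ rk ends (K ∪ Z) ∧
      ∀ f ∈ Z, Nr ends K S ρ x (ends f).1 ∧ Nr ends K S ρ x (ends f).2 := by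
  intro ρ
  induction ρ with
  | zero =>
    intro K S x _ _
    exact ⟨∅, Finset.empty_subset _, by simp, by simp⟩
  | succ ρ ih =>
    intro K S x hind hdeg
    set D := out ends K S x with hDdef
    have hDS : D ⊆ S := by rw [hDdef]; exact out_subset
    have htouch : ∀ f ∈ D, conn ends K x (ends f).1 ∨ conn ends K x (ends f).2 :=
      fun f hf => out_touch hf
    have hind2 : Ind ends 2 K S := fun T hT hc => hind T hT (by omega)
    have hr := star_indep hind2 D (Finset.Subset.refl _)
    have hind' : Ind ends (2 * ρ) (K ∪ D) (S \ D) :=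
      ind_contract_star (ρ := 2 * ρ) (by simpa [mul_add] using hind) hDS htouch
    have hdeg' : ∀ y, ¬ conn ends (K ∪ D) x y → (out ends (K ∪ D) (S \ D) y).Nonempty →
        3 ≤ (out ends (K ∪ D) (S \ D) y).card := by
      intro y hy hne
      rw [out_far htouch hy] at hne ⊢
      exact hdeg y (fun hh => hy (conn_mono Finset.subset_union_left hh)) hne
    obtain ⟨Z', hZ', hrk, hnear⟩ := ih (K ∪ D) (S \ D) x hind' hdeg'
    have hlift : ∀ v, Nr ends (K ∪ D) (S \ D) ρ x v → Nr ends K S (ρ + 1) x v := by
      rintro v ⟨Y, hY, hYc, hv⟩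
      rw [Finset.union_right_comm] at hv
      obtain ⟨Z0, hZ0, hZ0c, hv'⟩ := star_conn_one (B := K ∪ Y) (D := D) (x := x) (by
        intro f hf
        rcases htouch f hf with h | h
        · exact Or.inl (conn_mono Finset.subset_union_left h)
        · exact Or.inr (conn_mono Finset.subset_union_left h)) hv
      refine ⟨Y ∪ Z0, Finset.union_subset (hY.trans Finset.sdiff_subset) (hZ0.trans hDS),
        (Finset.card_union_le _ _).trans (by omega), ?_⟩
      rwa [← Finset.union_assoc]
    refine ⟨D ∪ Z', Finset.union_subset hDS (hZ'.trans Finset.sdiff_subset), ?_, ?_⟩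
    · rw [← Finset.union_assoc]
      rw [hr] at hrk
      rcases Nat.eq_zero_or_pos ρ with rfl | hρ
      · simp at hrk ⊢
        omega
      · have h2 := out_growth (K := K) (S := S) (x := x)
          (fun T hT hc => hind T hT (by omega)) hdeg
        rw [← hDdef] at h2
        have h3 : 1 ≤ 2 ^ ρ := Nat.one_le_two_pow
        have h4 : 2 * D.card * (2 ^ ρ - 1) ≤
          (out ends (K ∪ D) (S \ D) x).card * (2 ^ ρ - 1) := Nat.mul_le_mul_right _ h2
        have h5 : D.card * (2 ^ (ρ + 1) - 1) = 2 * D.card * (2 ^ ρ - 1) + D.card := by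
          obtain ⟨m, hm⟩ : ∃ m, 2 ^ ρ = m + 1 := ⟨2 ^ ρ - 1, by omega⟩
          have h6 : 2 ^ (ρ + 1) - 1 = 2 * m + 1 := by rw [pow_succ, hm]; omega
          rw [h6, hm, Nat.add_sub_cancel]
          ring
        omega
    · intro f hf
      rcases Finset.mem_union.mp hf with hf | hf
      · have hs : ({f} : Finset E) ⊆ S := Finset.singleton_subset_iff.mpr (hDS hf)
        have he : conn ends (K ∪ {f}) (ends f).1 (ends f).2 :=
          conn_edge (Finset.mem_union_right _ (Finset.mem_singleton_self f))
        rcases htouch f hf with h | h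
        · have h' := conn_mono (Finset.subset_union_left (s₂ := {f})) h
          exact ⟨⟨{f}, hs, by simp, h'⟩, ⟨{f}, hs, by simp, conn_trans h' he⟩⟩
        · have h' := conn_mono (Finset.subset_union_left (s₂ := {f})) h
          exact ⟨⟨{f}, hs, by simp, conn_trans h' (conn_symm he)⟩, ⟨{f}, hs, by simp, h'⟩⟩
      · exact ⟨hlift _ (hnear f hf).1, hlift _ (hnear f hf).2⟩

open Classical in
/-- the representatives of the classes met by `Z` -/
noncomputable def met [Fintype V] (ends : E → V × V) (K Z : Finset E) : Finset V :=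
  Finset.univ.filter (fun v => rp ends K v = v ∧ (out ends K Z v).Nonempty)

open Classical in
/-- the representatives of the classes not met by `Z` -/
noncomputable def unmet [Fintype V] (ends : E → V × V) (K Z : Finset E) : Finset V :=
  Finset.univ.filter (fun v => rp ends K v = v ∧ ¬ (out ends K Z v).Nonempty)

omit [DecidableEq E] in
lemma mem_met [Fintype V] {K Z : Finset E} {v : V} :
    v ∈ met ends K Z ↔ rp ends K v = v ∧ (out ends K Z v).Nonempty := by
  classical
  unfold met
  rw [Finset.mem_filter]
  simp

omit [DecidableEq E] in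
lemma mem_unmet [Fintype V] {K Z : Finset E} {v : V} :
    v ∈ unmet ends K Z ↔ rp ends K v = v ∧ ¬ (out ends K Z v).Nonempty := by
  classical
  unfold unmet
  rw [Finset.mem_filter]
  simp

omit [DecidableEq E] in
lemma rp_rp {K : Finset E} (v : V) : rp ends K (rp ends K v) = rp ends K v :=
  rp_eq (rp_conn v)

omit [DecidableEq E] in
lemma met_add_unmet [Fintype V] (K Z : Finset E) :
    (met ends K Z).card + (unmet ends K Z).card = cc ends K := by
  classical
  have hdis : Disjoint (met ends K Z) (unmet ends K Z) := by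
    rw [Finset.disjoint_left]
    intro v h1 h2
    exact (mem_unmet.mp h2).2 (mem_met.mp h1).2
  rw [← Finset.card_union_of_disjoint hdis]
  have hu : met ends K Z ∪ unmet ends K Z = Finset.univ.filter (fun v => rp ends K v = v) := by
    ext v
    rw [Finset.mem_union, mem_met, mem_unmet, Finset.mem_filter]
    constructor
    · rintro (h | h)
      · exact ⟨Finset.mem_univ _, h.1⟩
      · exact ⟨Finset.mem_univ _, h.1⟩
    · rintro ⟨_, h⟩
      by_cases h' : (out ends K Z v).Nonempty
      · exact Or.inl ⟨h, h'⟩
      · exact Or.inr ⟨h, h'⟩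
  rw [hu]
  unfold cc
  have := Fintype.ofFinite (gr ends K).ConnectedComponent
  rw [Nat.card_eq_fintype_card, ← Finset.card_univ]
  apply Finset.card_bij (fun v _ => (gr ends K).connectedComponentMk v)
  · intro v _; exact Finset.mem_univ _
  · intro u hu v hv huv
    rw [Finset.mem_filter] at hu hv
    rw [← hu.2, ← hv.2]
    exact rp_eq (SimpleGraph.ConnectedComponent.eq.mp huv)
  · intro c _
    induction c using SimpleGraph.ConnectedComponent.ind with | _ v =>
    refine ⟨rp ends K v, ?_, ?_⟩
    · rw [Finset.mem_filter]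
      exact ⟨Finset.mem_univ _, rp_rp v⟩
    · exact SimpleGraph.ConnectedComponent.eq.mpr (rp_conn v)

/-- the rank of `Z` is smaller than the number of classes met -/
lemma rank_lt_met [Fintype V] {K Z : Finset E} {e : E} (he : e ∈ Z)
    (hl : ¬ conn ends K (ends e).1 (ends e).2) :
    rk ends (K ∪ Z) - rk ends K + 1 ≤ (met ends K Z).card := by
  classical
  have := Fintype.ofFinite (gr ends (K ∪ Z)).ConnectedComponent
  have hmet := met_add_unmet (ends := ends) K Z
  have hI : (unmet ends K Z).card + 1 ≤ cc ends (K ∪ Z) := by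
    have hiso : ∀ c ∈ unmet ends K Z, ∀ z, conn ends (K ∪ Z) c z → conn ends K c z := by
      intro c hc z hz
      exact conn_of_out_empty (Finset.not_nonempty_iff_eq_empty.mp (mem_unmet.mp hc).2) hz
    have hmap : ((unmet ends K Z).image
        (fun c => (gr ends (K ∪ Z)).connectedComponentMk c)).card = (unmet ends K Z).card := by
      apply Finset.card_image_of_injOn
      intro c hc c' hc' hcc'
      have h1 : conn ends (K ∪ Z) c c' := SimpleGraph.ConnectedComponent.eq.mp hcc'
      have h2 := hiso c hc _ h1
      rw [← (mem_unmet.mp hc).1, ← (mem_unmet.mp hc').1]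
      exact rp_eq h2
    have hnot : (gr ends (K ∪ Z)).connectedComponentMk (ends e).1 ∉
        (unmet ends K Z).image (fun c => (gr ends (K ∪ Z)).connectedComponentMk c) := by
      intro h
      rw [Finset.mem_image] at h
      obtain ⟨c, hc, h⟩ := h
      have h1 : conn ends (K ∪ Z) c (ends e).1 := SimpleGraph.ConnectedComponent.eq.mp h
      have h2 := hiso c hc _ h1
      have h3 : conn ends (K ∪ Z) c (ends e).2 :=
        conn_trans h1 (conn_edge (Finset.mem_union_right _ he))
      have h4 := hiso c hc _ h3
      exact hl (conn_trans (conn_symm h2) h4)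
    have h6 := Finset.card_insert_of_notMem hnot
    rw [hmap] at h6
    rw [← h6]
    unfold cc
    rw [Nat.card_eq_fintype_card]
    exact Finset.card_le_univ _
  have h1 := cc_le (ends := ends) (K ∪ Z)
  have h2 := cc_le (ends := ends) K
  have h3 := (isRk_rk (V := V) ends).mono (Finset.subset_union_left (s₁ := K) (s₂ := Z))
  unfold rk at h3 ⊢
  omega

/-- double counting -/
lemma three_met_le [Fintype V] {K S : Finset E}
    (hdeg : ∀ y, (out ends K S y).Nonempty → 3 ≤ (out ends K S y).card) :
    3 * (met ends K S).card ≤ 2 * S.card := by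
  classical
  set J := met ends K S with hJ
  have hsum1 : 3 * J.card ≤ ∑ c ∈ J, (out ends K S c).card := by
    rw [mul_comm, ← smul_eq_mul]
    apply Finset.card_nsmul_le_sum
    intro c hc
    exact hdeg _ (mem_met.mp hc).2
  have hsum2 : ∑ c ∈ J, (out ends K S c).card ≤ 2 * S.card := by
    have h1 : ∀ c ∈ J, (out ends K S c).card =
        ∑ f ∈ S, if f ∈ out ends K S c then 1 else 0 := by
      intro c _
      rw [Finset.card_eq_sum_ones, ← Finset.sum_filter]
      congr 1
      ext f
      rw [Finset.mem_filter]
      exact ⟨fun h => ⟨out_subset h, h⟩, fun h => h.2⟩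
    rw [Finset.sum_congr rfl h1, Finset.sum_comm, mul_comm, ← smul_eq_mul]
    apply Finset.sum_le_card_nsmul
    intro f _
    rw [← Finset.sum_filter, ← Finset.card_eq_sum_ones]
    have hsub : J.filter (fun c => f ∈ out ends K S c) ⊆
        {rp ends K (ends f).1, rp ends K (ends f).2} := by
      intro c hc
      rw [Finset.mem_filter] at hc
      rw [Finset.mem_insert, Finset.mem_singleton]
      have hrc := (mem_met.mp hc.1).1
      rcases (mem_out.mp hc.2).2 with h | h
      · left
        rw [← hrc]
        exact rp_eq h.1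
      · right
        rw [← hrc]
        exact rp_eq h.1
    exact (Finset.card_le_card hsub).trans Finset.card_le_two
  omega

/-- the number of classes in the ball of radius `r` around `x` -/
lemma ball_card [Fintype V] {K S : Finset E} (r : ℕ) (x : V)
    (hl : ∀ e ∈ S, ¬ conn ends K (ends e).1 (ends e).2)
    (hind : Ind ends (2 * r) K S)
    (hdeg : ∀ y, (out ends K S y).Nonempty → 3 ≤ (out ends K S y).card)
    (hx : (out ends K S x).Nonempty)
    (B : Finset V) (hB : ∀ v, rp ends K v = v → Nr ends K S r x v → v ∈ B) :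
    3 * 2 ^ r - 2 ≤ B.card := by
  classical
  obtain ⟨Z, hZS, hrk, hnear⟩ := moore_local r K S x hind (fun y _ hy => hdeg y hy)
  have h3 := hdeg x hx
  have h4 : 3 * (2 ^ r - 1) ≤ (out ends K S x).card * (2 ^ r - 1) := Nat.mul_le_mul_right _ h3
  rcases Z.eq_empty_or_nonempty with h0 | ⟨e, he⟩
  · subst h0
    simp only [Finset.union_empty] at hrk
    have h5 : 2 ^ r - 1 = 0 := by omega
    have h6 : rp ends K x ∈ B := by
      apply hB _ (rp_rp x)
      exact (Nr.of_conn (conn_symm (rp_conn x))).mono (Nat.zero_le r)
    have h7 : 0 < B.card := Finset.card_pos.mpr ⟨_, h6⟩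
    omega
  · have h5 := rank_lt_met he (hl e (hZS he))
    have h6 : met ends K Z ⊆ B := by
      intro v hv
      obtain ⟨hv1, f, hf⟩ := mem_met.mp hv
      apply hB v hv1
      have hfZ := out_subset hf
      rcases (mem_out.mp hf).2 with h | h
      · have := (hnear f hfZ).1.trans (Nr.of_conn (S := S) (conn_symm h.1))
        simpa using this
      · have := (hnear f hfZ).2.trans (Nr.of_conn (S := S) (conn_symm h.1))
        simpa using this
    have h7 := Finset.card_le_card h6
    omega

end Pool.Agent.H313R2.FL
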