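import Mathlib
import Pool.Agent.H313R2.FL.Ball

set_option autoImplicit false

namespace Pool.Agent.H313R2.FL

variable {V E : Type*} [DecidableEq E] {ends : E → V × V}

lemma nr_out {K S : Finset E} {i : ℕ} {x v : V} (h : Nr ends K S i x v)
    (hx : (out ends K S x).Nonempty) : (out ends K S v).Nonempty := by
  obtain ⟨Z, hZ, _, h⟩ := h
  by_contra h0
  rw [Finset.not_nonempty_iff_eq_empty] at h0
  have h1 : out ends K Z v = ∅ := by
    rw [Finset.eq_empty_iff_forall_notMem]
    intro f hf
    have : f ∈ out ends K S v := by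
      rw [mem_out] at hf ⊢
      exact ⟨hZ hf.1, hf.2⟩
    rw [h0] at this
    simp at this
  have h2 := conn_of_out_empty h1 (conn_symm h)
  rw [out_congr h2] at h0
  rw [h0] at hx
  simp at hx

/-- clusters of small radius around a maximal separated set of roots -/
theorem clusters [Fintype V] (r : ℕ) {K S : Finset E} (hne : S.Nonempty)
    (hl : ∀ e ∈ S, ¬ conn ends K (ends e).1 (ends e).2)
    (hind : Ind ends (2 * r) K S)
    (hdeg : ∀ y, (out ends K S y).Nonempty → 3 ≤ (out ends K S y).card) :
    ∃ (X : Finset V) (T : Finset E), T ⊆ S ∧ X.Nonempty ∧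
      (∀ x ∈ X, (out ends K S x).Nonempty) ∧
      (∀ x ∈ X, ∀ x' ∈ X, conn ends (K ∪ T) x x' → x = x') ∧
      (∀ v, (out ends K S v).Nonempty → ∃ x ∈ X, ∃ Z ⊆ T, Z.card ≤ 2 * r ∧
        conn ends (K ∪ Z) x v) ∧
      T.card + X.card ≤ (met ends K S).card ∧
      X.card * (3 * 2 ^ r - 2) ≤ (met ends K S).card := by
  classical
  -- maximal separated set
  set P : Finset V → Prop := fun X => (∀ x ∈ X, (out ends K S x).Nonempty) ∧
    (∀ x ∈ X, ∀ x' ∈ X, x ≠ x' → ¬ Nr ends K S (2 * r) x x') with hP
  have hPne : ((Finset.univ : Finset V).powerset.filter P).Nonempty :=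
    ⟨∅, by simp [hP]⟩
  obtain ⟨X, hXm, hXmax⟩ := Finset.exists_max_image _ Finset.card hPne
  rw [Finset.mem_filter] at hXm
  obtain ⟨_, hX1, hX2⟩ := hXm
  have hcover : ∀ v, (out ends K S v).Nonempty → ∃ x ∈ X, Nr ends K S (2 * r) x v := by
    intro v hv
    by_contra hcon
    push Not at hcon
    have hvX : v ∉ X := by
      intro hvX
      exact hcon v hvX ((Nr.of_conn (conn_refl _ _)).mono (Nat.zero_le _))
    have hins : insert v X ∈ (Finset.univ : Finset V).powerset.filter P := by
      rw [Finset.mem_filter]
      refine ⟨by simp, ?_, ?_⟩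
      · intro x hx
        rcases Finset.mem_insert.mp hx with rfl | hx
        · exact hv
        · exact hX1 x hx
      · intro x hx x' hx' hxx'
        rcases Finset.mem_insert.mp hx with h1 | h1
        · rcases Finset.mem_insert.mp hx' with h2 | h2
          · exact absurd (h1.trans h2.symm) hxx'
          · rw [h1]
            exact fun hh => hcon x' h2 hh.symm
        · rcases Finset.mem_insert.mp hx' with h2 | h2
          · rw [h2]
            exact hcon x h1
          · exact hX2 x h1 x' h2 hxx'
    have := hXmax _ hins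
    rw [Finset.card_insert_of_notMem hvX] at this
    omega
  -- levels
  set lev : V → ℕ := fun v => sInf {i | ∃ x ∈ X, Nr ends K S i x v} with hlevdef
  have hlevle : ∀ v i x, x ∈ X → Nr ends K S i x v → lev v ≤ i := by
    intro v i x hx h
    exact Nat.sInf_le ⟨x, hx, h⟩
  have hlev : ∀ v, (out ends K S v).Nonempty → ∃ x ∈ X, Nr ends K S (lev v) x v := by
    intro v hv
    obtain ⟨x, hx, h⟩ := hcover v hv
    exact Nat.sInf_mem (s := {i | ∃ x ∈ X, Nr ends K S i x v}) ⟨2 * r, x, hx, h⟩
  have hlev2r : ∀ v, (out ends K S v).Nonempty → lev v ≤ 2 * r := by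
    intro v hv
    obtain ⟨x, hx, h⟩ := hcover v hv
    exact hlevle v _ x hx h
  have hlevcongr : ∀ u v, conn ends K u v → lev u = lev v := by
    intro u v huv
    have : {i | ∃ x ∈ X, Nr ends K S i x u} = {i | ∃ x ∈ X, Nr ends K S i x v} := by
      ext i
      constructor
      · rintro ⟨x, hx, h⟩
        exact ⟨x, hx, by simpa using h.trans (Nr.of_conn (S := S) huv)⟩
      · rintro ⟨x, hx, h⟩
        exact ⟨x, hx, by simpa using h.trans (Nr.of_conn (S := S) (conn_symm huv))⟩
    show sInf _ = sInf _
    rw [this]
  have hlev0 : ∀ x ∈ X, lev x = 0 := by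
    intro x hx
    have := hlevle x 0 x hx (Nr.of_conn (conn_refl _ _))
    omega
  -- parents
  have hparent : ∀ v, (out ends K S v).Nonempty → 0 < lev v →
      ∃ f ∈ S, ∃ w, (out ends K S w).Nonempty ∧ lev w < lev v ∧ conn ends (K ∪ {f}) w v := by
    intro v hv hpos
    obtain ⟨x, hx, Z, hZS, hZc, hZ⟩ := hlev v hv
    have hnot : ¬ conn ends K v x := by
      intro hh
      have := hlevle v 0 x hx (Nr.of_conn (conn_symm hh))
      omega
    have hoz : (out ends K Z v).Nonempty := by
      by_contra h0
      rw [Finset.not_nonempty_iff_eq_empty] at h0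
      exact hnot (conn_of_out_empty h0 (conn_symm hZ))
    obtain ⟨f, hf⟩ := hoz
    have hfZ := out_subset hf
    have hfS := hZS hfZ
    have hZ' : (Z.erase f).card ≤ lev v - 1 := by
      rw [Finset.card_erase_of_mem hfZ]; omega
    have hZeq : K ∪ Z = insert f (K ∪ Z.erase f) := by
      rw [← Finset.union_insert, Finset.insert_erase hfZ]
    have hmin : ¬ conn ends (K ∪ Z.erase f) x v := by
      intro hh
      have := hlevle v (lev v - 1) x hx
        ⟨Z.erase f, (Finset.erase_subset _ _).trans hZS, hZ', hh⟩
      omega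
    rw [hZeq, conn_insert] at hZ
    have hKsub : K ⊆ K ∪ Z.erase f := Finset.subset_union_left
    rcases (mem_out.mp hf).2 with h1 | h1
    · -- v ~ f.1, w = f.2
      refine ⟨f, hfS, (ends f).2, ?_, ?_, ?_⟩
      · refine ⟨f, mem_out.mpr ⟨hfS, Or.inr ⟨conn_refl _ _, ?_⟩⟩⟩
        exact fun hh => h1.2 (conn_trans h1.1 (conn_symm hh))
      · have hxw : conn ends (K ∪ Z.erase f) x (ends f).2 := by
          rcases hZ with hZ | hZ | hZ
          · exact absurd hZ hmin
          · exact absurd (conn_trans hZ.1 (conn_mono hKsub (conn_symm h1.1))) hmin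
          · exact hZ.1
        have := hlevle (ends f).2 (lev v - 1) x hx
          ⟨Z.erase f, (Finset.erase_subset _ _).trans hZS, hZ', hxw⟩
        omega
      · exact conn_trans (conn_symm (conn_edge (Finset.mem_union_right _
          (Finset.mem_singleton_self f)))) (conn_mono Finset.subset_union_left (conn_symm h1.1))
    · -- v ~ f.2, w = f.1
      refine ⟨f, hfS, (ends f).1, ?_, ?_, ?_⟩
      · refine ⟨f, mem_out.mpr ⟨hfS, Or.inl ⟨conn_refl _ _, ?_⟩⟩⟩
        exact fun hh => h1.2 (conn_trans h1.1 (conn_symm hh))
      · have hxw : conn ends (K ∪ Z.erase f) x (ends f).1 := by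
          rcases hZ with hZ | hZ | hZ
          · exact absurd hZ hmin
          · exact hZ.1
          · exact absurd (conn_trans hZ.1 (conn_mono hKsub (conn_symm h1.1))) hmin
        have := hlevle (ends f).1 (lev v - 1) x hx
          ⟨Z.erase f, (Finset.erase_subset _ _).trans hZS, hZ', hxw⟩
        omega
      · exact conn_trans (conn_edge (Finset.mem_union_right _
          (Finset.mem_singleton_self f))) (conn_mono Finset.subset_union_left (conn_symm h1.1))
  obtain ⟨e0, he0⟩ := hne
  have : Nonempty V := ⟨(ends e0).1⟩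
  have : Nonempty E := ⟨e0⟩
  choose! p hpS w hw1 hw2 hw3 using hparent
  set T : Finset E := ((met ends K S).filter (fun v => 0 < lev v)).image p with hT
  have hTS : T ⊆ S := by
    intro f hf
    rw [hT, Finset.mem_image] at hf
    obtain ⟨v, hv, rfl⟩ := hf
    rw [Finset.mem_filter] at hv
    exact hpS v (mem_met.mp hv.1).2 hv.2
  have hTX : T.card + X.card ≤ (met ends K S).card := by
    have h1 : T.card ≤ ((met ends K S).filter (fun v => 0 < lev v)).card :=
      Finset.card_image_le
    have h2 : X.card ≤ ((met ends K S).filter (fun v => ¬ 0 < lev v)).card := by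
      apply Finset.card_le_card_of_injOn (fun x => rp ends K x)
      · intro x hx
        have hx' : x ∈ X := hx
        show rp ends K x ∈ ((met ends K S).filter (fun v => ¬ 0 < lev v))
        rw [Finset.mem_filter, mem_met]
        refine ⟨⟨rp_rp x, ?_⟩, ?_⟩
        · rw [out_congr (rp_conn x)]; exact hX1 x hx'
        · rw [hlevcongr _ _ (rp_conn x), hlev0 x hx']
          omega
      · intro x hx x' hx' hxx'
        by_contra hne
        have h3 : conn ends K x x' := by
          have h4 := rp_conn (ends := ends) (K := K) x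
          have h5 := rp_conn (ends := ends) (K := K) x'
          have h6 : rp ends K x = rp ends K x' := hxx'
          rw [h6] at h4
          exact conn_trans (conn_symm h4) h5
        exact hX2 x hx x' hx' hne ((Nr.of_conn h3).mono (Nat.zero_le _))
    have h3 := Finset.card_filter_add_card_filter_not (s := met ends K S) (fun v => 0 < lev v)
    omega
  have hreach : ∀ l v, lev v = l → (out ends K S v).Nonempty →
      ∃ x ∈ X, ∃ Z ⊆ T, Z.card ≤ l ∧ conn ends (K ∪ Z) x v := by
    intro l
    induction l using Nat.strong_induction_on with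
    | _ l IH =>
    intro v hvl hv
    have hc : conn ends K (rp ends K v) v := rp_conn v
    have hlc : lev (rp ends K v) = l := by rw [hlevcongr _ _ hc, hvl]
    have hoc : (out ends K S (rp ends K v)).Nonempty := by rw [out_congr hc]; exact hv
    rcases Nat.eq_zero_or_pos l with h0 | hpos
    · obtain ⟨x, hx, h⟩ := hlev v hv
      rw [hvl, h0] at h
      refine ⟨x, hx, ∅, Finset.empty_subset _, by simp, ?_⟩
      rw [Finset.union_empty]
      exact nr_zero.mp h
    · have hposc : 0 < lev (rp ends K v) := by omega
      have h1 := hw1 _ hoc hposc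
      have h2 := hw2 _ hoc hposc
      have h3 := hw3 _ hoc hposc
      obtain ⟨x, hx, Z, hZT, hZc, hZ⟩ := IH (lev (w (rp ends K v))) (by omega) _ rfl h1
      refine ⟨x, hx, Z ∪ {p (rp ends K v)}, ?_, ?_, ?_⟩
      · apply Finset.union_subset hZT
        rw [Finset.singleton_subset_iff, hT, Finset.mem_image]
        refine ⟨rp ends K v, ?_, rfl⟩
        rw [Finset.mem_filter, mem_met]
        exact ⟨⟨rp_rp v, hoc⟩, hposc⟩
      · refine (Finset.card_union_le _ _).trans ?_
        rw [Finset.card_singleton]
        omega
      · have h4 := conn_mono (B := K ∪ (Z ∪ {p (rp ends K v)}))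
          (Finset.union_subset_union_right Finset.subset_union_left) hZ
        have h5 := conn_mono (B := K ∪ (Z ∪ {p (rp ends K v)}))
          (Finset.union_subset_union_right Finset.subset_union_right) h3
        exact conn_trans h4 (conn_trans h5 (conn_mono Finset.subset_union_left hc))
  refine ⟨X, T, hTS, ?_, hX1, ?_, ?_, hTX, ?_⟩
  · -- X nonempty
    have he0o : e0 ∈ out ends K S (ends e0).1 :=
      mem_out.mpr ⟨he0, Or.inl ⟨conn_refl _ _, hl e0 he0⟩⟩
    obtain ⟨x, hx, _⟩ := hcover _ ⟨e0, he0o⟩
    exact ⟨x, hx⟩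
  · -- distinct roots are in distinct clusters
    intro x hx x' hx' hxx'
    by_contra hne
    have hmu := met_add_unmet (ends := ends) K S
    have hr := (isRk_rk (V := V) ends).union_le K T
    have := Fintype.ofFinite (gr ends (K ∪ T)).ConnectedComponent
    have hcc : cc ends (K ∪ T) ≤ (unmet ends K S ∪ X.erase x').card := by
      unfold cc
      rw [Nat.card_eq_fintype_card, ← Finset.card_univ]
      refine le_trans (Finset.card_le_card ?_) (Finset.card_image_le
        (f := fun v => (gr ends (K ∪ T)).connectedComponentMk v))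
      intro c _
      induction c using SimpleGraph.ConnectedComponent.ind with | _ v =>
      rw [Finset.mem_image]
      by_cases hv : (out ends K S v).Nonempty
      · obtain ⟨y, hy, Z, hZT, _, hZ⟩ := hreach _ v rfl hv
        have hZ' := conn_mono (Finset.union_subset_union_right (s := K) hZT) hZ
        by_cases hyx : y = x'
        · refine ⟨x, ?_, ?_⟩
          · rw [Finset.mem_union, Finset.mem_erase]
            exact Or.inr ⟨hne, hx⟩
          · apply SimpleGraph.ConnectedComponent.eq.mpr
            exact conn_trans hxx' (hyx ▸ hZ')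
        · refine ⟨y, ?_, ?_⟩
          · rw [Finset.mem_union, Finset.mem_erase]
            exact Or.inr ⟨hyx, hy⟩
          · exact SimpleGraph.ConnectedComponent.eq.mpr hZ'
      · refine ⟨rp ends K v, ?_, ?_⟩
        · rw [Finset.mem_union, mem_unmet]
          left
          refine ⟨rp_rp v, ?_⟩
          rw [out_congr (rp_conn v)]
          exact hv
        · exact SimpleGraph.ConnectedComponent.eq.mpr
            (conn_mono Finset.subset_union_left (rp_conn v))
    have h1 := Finset.card_union_le (unmet ends K S) (X.erase x')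
    rw [Finset.card_erase_of_mem hx'] at h1
    have h2 : 0 < X.card := Finset.card_pos.mpr ⟨x, hx⟩
    have h3 := cc_le (ends := ends) K
    have h4 := cc_le (ends := ends) (K ∪ T)
    unfold rk at hr
    omega
  · intro v hv
    obtain ⟨x, hx, Z, hZT, hZc, hZ⟩ := hreach _ v rfl hv
    exact ⟨x, hx, Z, hZT, hZc.trans (hlev2r v hv), hZ⟩
  · -- balls are disjoint
    set Bl : V → Finset V := fun x => (met ends K S).filter (fun v => Nr ends K S r x v) with hBl
    have hdis : ∀ x ∈ X, ∀ x' ∈ X, x ≠ x' → Disjoint (Bl x) (Bl x') := by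
      intro x hx x' hx' hne
      rw [Finset.disjoint_left]
      intro v hv hv'
      rw [hBl, Finset.mem_filter] at hv hv'
      have := hv.2.trans hv'.2.symm
      rw [← two_mul] at this
      exact hX2 x hx x' hx' hne this
    have hcard : ∀ x ∈ X, 3 * 2 ^ r - 2 ≤ (Bl x).card := by
      intro x hx
      apply ball_card r x hl hind hdeg (hX1 x hx)
      intro v hv hn
      rw [hBl, Finset.mem_filter, mem_met]
      exact ⟨⟨hv, nr_out hn (hX1 x hx)⟩, hn⟩
    calc X.card * (3 * 2 ^ r - 2) ≤ ∑ x ∈ X, (Bl x).card := by
          rw [← smul_eq_mul]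
          exact Finset.card_nsmul_le_sum _ _ _ hcard
      _ = (X.biUnion Bl).card := (Finset.card_biUnion hdis).symm
      _ ≤ (met ends K S).card := by
          apply Finset.card_le_card
          intro v hv
          rw [Finset.mem_biUnion] at hv
          obtain ⟨x, _, hv⟩ := hv
          exact (Finset.mem_filter.mp hv).1

end Pool.Agent.H313R2.FL
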