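import Mathlib
import Pool.Agent.H313R2.FL.Log

set_option autoImplicit false

namespace Pool.Agent.H313R2.FL

/-- the flow polynomial, as in the problem, is the absolute `F` -/
lemma flow_eq (n m : ℕ) (ends : Fin m → Fin n × Fin n) (q : ℝ) :
    ∑ A ∈ (Finset.univ : Finset (Fin m)).powerset,
        (-1 : ℝ) ^ (m - A.card) *
          q ^ (A.card + Nat.card (SimpleGraph.fromRel
                (fun u v : Fin n => ∃ f ∈ A, ends f = (u, v))).ConnectedComponent - n)
      = F (rk ends) ∅ Finset.univ q := by
  unfold F
  refine Finset.sum_congr rfl (fun A _ => ?_)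
  rw [rk_empty, Finset.empty_union, Finset.card_univ, Fintype.card_fin]
  have h1 : Nat.card (SimpleGraph.fromRel
      (fun u v : Fin n => ∃ f ∈ A, ends f = (u, v))).ConnectedComponent = cc ends A := rfl
  have h2 := cc_le (ends := ends) A
  rw [h1]
  unfold rk
  rw [Nat.card_eq_fintype_card, Fintype.card_fin] at h2 ⊢
  congr 2
  omega

lemma cf_of_bridgeless (n m : ℕ) (ends : Fin m → Fin n × Fin n)
    (hb : ∀ e : Fin m,
      Nat.card (SimpleGraph.fromRel
          (fun u v : Fin n => ∃ f ∈ (Finset.univ : Finset (Fin m)).erase e,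
            ends f = (u, v))).ConnectedComponent
        = Nat.card (SimpleGraph.fromRel
          (fun u v : Fin n => ∃ f : Fin m, ends f = (u, v))).ConnectedComponent) :
    CF (rk ends) ∅ Finset.univ := by
  intro e _
  rw [Finset.empty_union, Finset.empty_union]
  have h := hb e
  have h1 : (SimpleGraph.fromRel (fun u v : Fin n => ∃ f : Fin m, ends f = (u, v))) =
      gr ends Finset.univ := by
    unfold gr
    congr 1
    ext u v
    simp
  rw [h1] at h
  unfold rk cc
  have h2 : gr ends (Finset.univ.erase e) = SimpleGraph.fromRel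
          (fun u v : Fin n => ∃ f ∈ (Finset.univ : Finset (Fin m)).erase e,
            ends f = (u, v)) := rfl
  rw [h2, h]

/-- flow positivity from the girth condition -/
theorem flow_pos_of_gc (n m : ℕ) (ends : Fin m → Fin n × Fin n)
    (hb : ∀ e : Fin m,
      Nat.card (SimpleGraph.fromRel
          (fun u v : Fin n => ∃ f ∈ (Finset.univ : Finset (Fin m)).erase e,
            ends f = (u, v))).ConnectedComponent
        = Nat.card (SimpleGraph.fromRel
          (fun u v : Fin n => ∃ f : Fin m, ends f = (u, v))).ConnectedComponent)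
    (q : ℝ) (hq : 1 < q) (hGC : GC (rk ends) q) :
    0 < ∑ A ∈ (Finset.univ : Finset (Fin m)).powerset,
        (-1 : ℝ) ^ (m - A.card) *
          q ^ (A.card + Nat.card (SimpleGraph.fromRel
                (fun u v : Fin n => ∃ f ∈ A, ends f = (u, v))).ConnectedComponent - n) := by
  rw [flow_eq]
  exact F_pos (isRk_rk ends) q hq hGC ∅ Finset.univ (Finset.disjoint_empty_left _)
    (cf_of_bridgeless n m ends hb)

end Pool.Agent.H313R2.FL
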