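import Mathlib

set_option autoImplicit false

namespace Pool.Agent.H313R2.FL

section rel

variable {W V U : Type*}

/-- connected inside the set `X` -/
def CIn (G : SimpleGraph V) (X : Set V) (u v : V) : Prop :=
  Relation.ReflTransGen (fun a b => G.Adj a b ∧ a ∈ X ∧ b ∈ X) u v

/-- `H` is a minor of `G`, by branch sets -/
def IsMin (H : SimpleGraph W) (G : SimpleGraph V) : Prop :=
  ∃ B : W → Set V, (∀ w, (B w).Nonempty) ∧
    (∀ w, ∀ u ∈ B w, ∀ v ∈ B w, CIn G (B w) u v) ∧
    (∀ w w', w ≠ w' → Disjoint (B w) (B w')) ∧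
    (∀ w w', H.Adj w w' → ∃ u ∈ B w, ∃ v ∈ B w', G.Adj u v)

lemma CIn.mono {G : SimpleGraph V} {X Y : Set V} (hXY : X ⊆ Y) {u v : V} (h : CIn G X u v) :
    CIn G Y u v := by
  induction h with
  | refl => exact Relation.ReflTransGen.refl
  | @tail b c _ h ih => exact Relation.ReflTransGen.tail ih ⟨h.1, hXY h.2.1, hXY h.2.2⟩

lemma IsMin.trans {H : SimpleGraph W} {G : SimpleGraph V} {F : SimpleGraph U}
    (h1 : IsMin H G) (h2 : IsMin G F) : IsMin H F := by
  obtain ⟨B, hB1, hB2, hB3, hB4⟩ := h1
  obtain ⟨C, hC1, hC2, hC3, hC4⟩ := h2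
  have hsub : ∀ w, ∀ v ∈ B w, C v ⊆ ⋃ v ∈ B w, C v := by
    intro w v hv
    exact Set.subset_biUnion_of_mem hv
  refine ⟨fun w => ⋃ v ∈ B w, C v, ?_, ?_, ?_, ?_⟩
  · intro w
    obtain ⟨v, hv⟩ := hB1 w
    obtain ⟨u, hu⟩ := hC1 v
    exact ⟨u, hsub w v hv hu⟩
  · intro w u hu u' hu'
    simp only [Set.mem_iUnion, exists_prop] at hu hu'
    obtain ⟨v, hv, hu⟩ := hu
    obtain ⟨v', hv', hu'⟩ := hu'
    have key : ∀ v', CIn G (B w) v v' → v' ∈ B w → ∀ u' ∈ C v',
        CIn F (⋃ v ∈ B w, C v) u u' := by
      intro v' h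
      induction h with
      | refl =>
        intro _ u' hu'
        exact (hC2 v u hu u' hu').mono (hsub w v hv)
      | @tail b c _ h ih =>
        intro _ u' hu'
        obtain ⟨a1, ha1, a2, ha2, hadj⟩ := hC4 b c h.1
        have h3 := ih h.2.1 a1 ha1
        have h4 : CIn F (⋃ v ∈ B w, C v) a1 a2 :=
          Relation.ReflTransGen.single ⟨hadj, hsub w b h.2.1 ha1, hsub w c h.2.2 ha2⟩
        exact (h3.trans h4).trans ((hC2 c a2 ha2 u' hu').mono (hsub w c h.2.2))
    exact key v' (hB2 w v hv v' hv') hv' u' hu'
  · intro w w' hww'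
    rw [Set.disjoint_left]
    intro u hu hu'
    simp only [Set.mem_iUnion, exists_prop] at hu hu'
    obtain ⟨v, hv, hu⟩ := hu
    obtain ⟨v', hv', hu'⟩ := hu'
    by_cases hvv : v = v'
    · subst hvv
      exact Set.disjoint_left.mp (hB3 w w' hww') hv hv'
    · exact Set.disjoint_left.mp (hC3 v v' hvv) hu hu'
  · intro w w' hadj
    obtain ⟨v, hv, v', hv', h⟩ := hB4 w w' hadj
    obtain ⟨u, hu, u', hu', h'⟩ := hC4 v v' h
    exact ⟨u, hsub w v hv hu, u', hsub w' v' hv' hu', h'⟩

lemma isMin_of_inj {H : SimpleGraph W} {G : SimpleGraph V} (f : W → V)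
    (hf : Function.Injective f) (hadj : ∀ a b, H.Adj a b → G.Adj (f a) (f b)) : IsMin H G := by
  refine ⟨fun w => {f w}, fun w => ⟨f w, rfl⟩, ?_, ?_, ?_⟩
  · intro w u hu v hv
    rw [Set.mem_singleton_iff] at hu hv
    subst hu; subst hv
    exact Relation.ReflTransGen.refl
  · intro w w' hww'
    rw [Set.disjoint_singleton]
    exact fun h => hww' (hf h)
  · intro w w' h
    exact ⟨f w, rfl, f w', rfl, hadj w w' h⟩

/-- contraction of the edge `x y` -/
def ctr (H : SimpleGraph W) (x y : W) : SimpleGraph {w : W // w ≠ y} where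
  Adj a b := a ≠ b ∧ (H.Adj a.1 b.1 ∨ (a.1 = x ∧ H.Adj y b.1) ∨ (b.1 = x ∧ H.Adj y a.1))
  symm := ⟨by
    intro a b h
    refine ⟨h.1.symm, ?_⟩
    rcases h.2 with h | h | h
    · exact Or.inl h.symm
    · exact Or.inr (Or.inr h)
    · exact Or.inr (Or.inl h)⟩
  loopless := ⟨fun a h => h.1 rfl⟩

lemma isMin_ctr (H : SimpleGraph W) (x y : W) (hxy : H.Adj x y) : IsMin (ctr H x y) H := by
  classical
  refine ⟨fun w => if w.1 = x then {x, y} else {w.1}, ?_, ?_, ?_, ?_⟩
  · intro w
    by_cases h : w.1 = x
    · simp only [h, if_true]; exact ⟨x, by simp⟩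
    · simp only [h, if_false]; exact ⟨w.1, by simp⟩
  · intro w u hu v hv
    by_cases h : w.1 = x
    · simp only [h, if_true] at hu hv ⊢
      have hx : x ∈ ({x, y} : Set W) := by simp
      have hy : y ∈ ({x, y} : Set W) := by simp
      rcases hu with rfl | rfl <;> rcases hv with rfl | rfl
      · exact Relation.ReflTransGen.refl
      · exact Relation.ReflTransGen.single ⟨hxy, hx, hy⟩
      · exact Relation.ReflTransGen.single ⟨hxy.symm, hy, hx⟩
      · exact Relation.ReflTransGen.refl
    · simp only [h, if_false] at hu hv ⊢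
      rw [Set.mem_singleton_iff] at hu hv
      subst hu; subst hv
      exact Relation.ReflTransGen.refl
  · intro w w' hww'
    have hne : w.1 ≠ w'.1 := fun h => hww' (Subtype.ext h)
    rw [Set.disjoint_left]
    intro u hu hu'
    have hwy := w.2
    have hwy' := w'.2
    by_cases h : w.1 = x <;> by_cases h' : w'.1 = x
    · exact hne (h.trans h'.symm)
    · simp only [h, if_true] at hu
      simp only [h', if_false, Set.mem_singleton_iff] at hu'
      subst hu'
      rcases hu with hu | hu
      · exact h' hu
      · exact hwy' hu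
    · simp only [h', if_true] at hu'
      simp only [h, if_false, Set.mem_singleton_iff] at hu
      subst hu
      rcases hu' with hu' | hu'
      · exact h hu'
      · exact hwy hu'
    · simp only [h, if_false, Set.mem_singleton_iff] at hu
      simp only [h', if_false, Set.mem_singleton_iff] at hu'
      exact hne (hu.symm.trans hu')
  · intro w w' hadj
    have hmem : ∀ w : {w : W // w ≠ y}, w.1 ∈ (if w.1 = x then ({x, y} : Set W) else {w.1}) := by
      intro w
      by_cases h : w.1 = x
      · rw [if_pos h, h]; simp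
      · rw [if_neg h]; simp
    have hmemy : ∀ w : {w : W // w ≠ y}, w.1 = x →
        y ∈ (if w.1 = x then ({x, y} : Set W) else {w.1}) := by
      intro w h
      rw [if_pos h]; simp
    rcases hadj.2 with h | ⟨h1, h2⟩ | ⟨h1, h2⟩
    · exact ⟨w.1, hmem w, w'.1, hmem w', h⟩
    · exact ⟨y, hmemy w h1, w'.1, hmem w', h2⟩
    · exact ⟨w.1, hmem w, y, hmemy w' h1, h2.symm⟩

end rel

section count

open Classical in
/-- ordered adjacent pairs -/
noncomputable def AP {W : Type*} [Fintype W] (H : SimpleGraph W) : Finset (W × W) :=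
  Finset.univ.filter (fun p => H.Adj p.1 p.2)

open Classical in
/-- neighbours -/
noncomputable def nb {W : Type*} [Fintype W] (H : SimpleGraph W) (v : W) : Finset W :=
  Finset.univ.filter (fun w => H.Adj v w)

variable {W : Type*} [Fintype W]

lemma mem_AP {H : SimpleGraph W} {p : W × W} : p ∈ AP H ↔ H.Adj p.1 p.2 := by
  classical
  unfold AP; simp

lemma mem_nb {H : SimpleGraph W} {v w : W} : w ∈ nb H v ↔ H.Adj v w := by
  classical
  unfold nb; simp

lemma card_AP (H : SimpleGraph W) : (AP H).card = ∑ v, (nb H v).card := by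
  classical
  rw [Finset.card_eq_sum_card_fiberwise (f := Prod.fst) (t := Finset.univ)
    (fun _ _ => Finset.mem_coe.mpr (Finset.mem_univ _))]
  refine Finset.sum_congr rfl (fun v _ => ?_)
  apply Finset.card_bij (fun p _ => p.2)
  · intro p hp
    rw [Finset.mem_filter, mem_AP] at hp
    rw [mem_nb, ← hp.2]
    exact hp.1
  · intro p hp p' hp' h
    rw [Finset.mem_filter] at hp hp'
    exact Prod.ext (hp.2.trans hp'.2.symm) h
  · intro w hw
    rw [mem_nb] at hw
    refine ⟨(v, w), ?_, rfl⟩
    rw [Finset.mem_filter, mem_AP]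
    exact ⟨hw, rfl⟩

lemma card_AP_le (H : SimpleGraph W) :
    (AP H).card ≤ Fintype.card W * (Fintype.card W - 1) := by
  classical
  have : AP H ⊆ (Finset.univ : Finset W).offDiag := by
    intro p hp
    rw [mem_AP] at hp
    rw [Finset.mem_offDiag]
    exact ⟨Finset.mem_univ _, Finset.mem_univ _, hp.ne⟩
  refine (Finset.card_le_card this).trans ?_
  rw [Finset.offDiag_card, Finset.card_univ, Nat.mul_sub_one]

lemma nb_card_lt (H : SimpleGraph W) (v : W) : (nb H v).card < Fintype.card W := by
  classical
  rw [← Finset.card_univ]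
  apply Finset.card_lt_card
  rw [Finset.ssubset_iff_subset_ne]
  refine ⟨Finset.subset_univ _, fun h => ?_⟩
  have : v ∈ nb H v := by rw [h]; exact Finset.mem_univ _
  rw [mem_nb] at this
  exact this.ne rfl

/-- counting in a contraction -/
lemma card_AP_ctr [DecidableEq W] (H : SimpleGraph W) (x y : W) (hxy : H.Adj x y) :
    (AP H).card ≤ (AP (ctr H x y)).card + 2 * ((nb H x ∩ nb H y).card + 1) := by
  classical
  set C := insert x (nb H x ∩ nb H y) with hC
  have hxC : x ∉ nb H x ∩ nb H y := by
    rw [Finset.mem_inter, mem_nb, mem_nb]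
    exact fun h => h.1.ne rfl
  have hCc : C.card = (nb H x ∩ nb H y).card + 1 := Finset.card_insert_of_notMem hxC
  set R := C.image (fun b => (y, b)) ∪ C.image (fun b => (b, y)) with hR
  have hRc : R.card ≤ 2 * C.card := by
    refine (Finset.card_union_le _ _).trans ?_
    have h1 : (C.image (fun b => (y, b))).card ≤ C.card := Finset.card_image_le
    have h2 : (C.image (fun b => (b, y))).card ≤ C.card := Finset.card_image_le
    omega
  have hQ : (AP H \ R).card ≤ (AP (ctr H x y)).card := by
    have hphi : ∀ w : W, (if w = y then x else w) ≠ y := by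
      intro w
      by_cases h : w = y
      · rw [if_pos h]; exact hxy.ne
      · rw [if_neg h]; exact h
    set φ : W → {w : W // w ≠ y} := fun w => ⟨if w = y then x else w, hphi w⟩ with hφ
    have hφy : (φ y).1 = x := by simp [hφ]
    have hφn : ∀ w, w ≠ y → (φ w).1 = w := by
      intro w hw; simp [hφ, hw]
    apply Finset.card_le_card_of_injOn (fun p => (φ p.1, φ p.2))
    · intro p hp
      have hp' : p ∈ AP H \ R := hp
      rw [Finset.mem_sdiff, mem_AP] at hp'
      obtain ⟨hadj, hpR⟩ := hp'
      have hnot1 : ¬ (p.1 = y ∧ p.2 ∈ C) := by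
        rintro ⟨h1, h2⟩
        apply hpR
        rw [hR, Finset.mem_union]
        left
        rw [Finset.mem_image]
        exact ⟨p.2, h2, by rw [← h1]⟩
      have hnot2 : ¬ (p.2 = y ∧ p.1 ∈ C) := by
        rintro ⟨h1, h2⟩
        apply hpR
        rw [hR, Finset.mem_union]
        right
        rw [Finset.mem_image]
        exact ⟨p.1, h2, by rw [← h1]⟩
      show (φ p.1, φ p.2) ∈ AP (ctr H x y)
      rw [mem_AP]
      show (φ p.1) ≠ (φ p.2) ∧ _
      by_cases h1 : p.1 = y
      · have h2 : p.2 ≠ y := fun h => hadj.ne (h1.trans h.symm)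
        have h3 : p.2 ≠ x := by
          intro h
          exact hnot1 ⟨h1, by rw [h, hC]; exact Finset.mem_insert_self _ _⟩
        refine ⟨?_, Or.inr (Or.inl ⟨by rw [h1]; exact hφy, ?_⟩)⟩
        · intro h
          have h4 := congrArg Subtype.val h
          rw [h1, hφy, hφn _ h2] at h4
          exact h3 h4.symm
        · show H.Adj y (φ p.2).1
          rw [hφn _ h2, ← h1]
          exact hadj
      · by_cases h2 : p.2 = y
        · have h3 : p.1 ≠ x := by
            intro h
            exact hnot2 ⟨h2, by rw [h, hC]; exact Finset.mem_insert_self _ _⟩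
          refine ⟨?_, Or.inr (Or.inr ⟨by show (φ p.2).1 = x; rw [h2]; exact hφy, ?_⟩)⟩
          · intro h
            have h4 := congrArg Subtype.val h
            rw [h2, hφy, hφn _ h1] at h4
            exact h3 h4
          · show H.Adj y (φ p.1).1
            rw [hφn _ h1, ← h2]
            exact hadj.symm
        · refine ⟨?_, Or.inl ?_⟩
          · intro h
            have h4 := congrArg Subtype.val h
            rw [hφn _ h1, hφn _ h2] at h4
            exact hadj.ne h4
          · show H.Adj (φ p.1).1 (φ p.2).1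
            rw [hφn _ h1, hφn _ h2]
            exact hadj
    · intro p hp q hq hpq
      have hp' : p ∈ AP H \ R := hp
      have hq' : q ∈ AP H \ R := hq
      rw [Finset.mem_sdiff, mem_AP] at hp' hq'
      have hmemR1 : ∀ b ∈ C, (y, b) ∈ R := by
        intro b hb
        rw [hR, Finset.mem_union, Finset.mem_image]
        exact Or.inl ⟨b, hb, rfl⟩
      have hmemR2 : ∀ b ∈ C, (b, y) ∈ R := by
        intro b hb
        rw [hR, Finset.mem_union, Finset.mem_image, Finset.mem_image]
        exact Or.inr ⟨b, hb, rfl⟩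
      have hxC' : x ∈ C := by rw [hC]; exact Finset.mem_insert_self _ _
      have hcC : ∀ b, H.Adj x b → H.Adj y b → b ∈ C := by
        intro b h1 h2
        rw [hC, Finset.mem_insert, Finset.mem_inter, mem_nb, mem_nb]
        exact Or.inr ⟨h1, h2⟩
      obtain ⟨a, b⟩ := p
      obtain ⟨a', b'⟩ := q
      simp only [Prod.mk.injEq] at hpq
      have e1 := congrArg Subtype.val hpq.1
      have e2 := congrArg Subtype.val hpq.2
      obtain ⟨hab, habR⟩ := hp'
      obtain ⟨hab', habR'⟩ := hq'
      simp only at hab hab'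
      by_cases ha : a = y
      · subst ha
        have hb : b ≠ a := fun h => hab.ne h.symm
        have hbC : b ∉ C := fun h => habR (hmemR1 b h)
        rw [hφy] at e1
        by_cases ha' : a' = a
        · subst ha'
          have hb' : b' ≠ a' := fun h => hab'.ne h.symm
          rw [hφn _ hb, hφn _ hb'] at e2
          rw [e2]
        · rw [hφn _ ha'] at e1
          -- a' = x
          subst e1
          by_cases hb' : b' = a
          · subst hb'
            exact absurd (hmemR2 _ hxC') habR'
          · rw [hφn _ hb, hφn _ hb'] at e2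
            subst e2
            exact absurd (hcC b hab' hab) hbC
      · rw [hφn _ ha] at e1
        by_cases ha' : a' = y
        · subst ha'
          rw [hφy] at e1
          subst e1
          have hb' : b' ≠ a' := fun h => hab'.ne h.symm
          have hbC' : b' ∉ C := fun h => habR' (hmemR1 b' h)
          by_cases hb : b = a'
          · subst hb
            exact absurd (hmemR2 _ hxC') habR
          · rw [hφn _ hb, hφn _ hb'] at e2
            subst e2
            exact absurd (hcC b hab hab') hbC'
        · rw [hφn _ ha'] at e1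
          subst e1
          by_cases hb : b = y
          · subst hb
            by_cases hb' : b' = b
            · rw [hb']
            · rw [hφy, hφn _ hb'] at e2
              subst e2
              exact absurd (hmemR2 a (hcC a hab'.symm hab.symm)) habR
          · rw [hφn _ hb] at e2
            by_cases hb' : b' = y
            · subst hb'
              rw [hφy] at e2
              subst e2
              exact absurd (hmemR2 a (hcC a hab.symm hab'.symm)) habR'
            · rw [hφn _ hb'] at e2
              rw [e2]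
  have h1 := Finset.le_card_sdiff R (AP H)
  omega

end count

end Pool.Agent.H313R2.FL
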