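import Mathlib
import Pool.Agent.H313R2.FL.Minor

set_option autoImplicit false

namespace Pool.Agent.H313R2.FL

/-- a dense enough graph has a minor which is the neighbourhood of a vertex in a
contraction-minimal minor -/
theorem dense_nbhd (a c n0 : ℕ) (h0 : n0 * (n0 - 1) + c < 2 * a * n0) :
    ∀ N M : ℕ, ∀ (W : Type) [Fintype W] (H : SimpleGraph W), Fintype.card W = N →
      (AP H).card = M → n0 ≤ N → 2 * a * N ≤ (AP H).card + c →
      ∃ (W' : Type) (_ : Fintype W') (H' : SimpleGraph W'), IsMin H' H ∧ Nonempty W' ∧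
        (∀ v, a ≤ (nb H' v).card) ∧
        ∃ n1, n0 < n1 ∧ n1 ≤ N ∧ Fintype.card W' * n1 + c ≤ 2 * a * n1 + 1 := by
  classical
  intro N
  induction N using Nat.strong_induction_on with
  | _ N IHN =>
  intro M
  induction M using Nat.strong_induction_on with
  | _ M IHM =>
  intro W _ H hW hM hn0 hbig
  have hn0N : n0 < N := by
    rcases hn0.lt_or_eq with h | h
    · exact h
    · exfalso
      have h1 := card_AP_le H
      rw [hW, ← h] at h1
      rw [← h] at hbig
      omega
  by_cases h1 : ∃ x y, H.Adj x y ∧ (nb H x ∩ nb H y).card < a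
  · -- contract
    obtain ⟨x, y, hxy, hc⟩ := h1
    have hcard : Fintype.card {w : W // w ≠ y} = N - 1 := by
      have := Fintype.card_subtype_compl (fun w : W => w = y)
      rw [Fintype.card_subtype_eq, hW] at this
      exact this
    have h2 := card_AP_ctr H x y hxy
    have h3 : 2 * a * (N - 1) ≤ (AP (ctr H x y)).card + c := by
      have h4 : 2 * a * (N - 1) + 2 * a = 2 * a * N := by
        rw [← Nat.mul_succ]
        congr 1
        omega
      omega
    obtain ⟨W', i', H', hmin, hne, hdeg, n1, hn1, hn1', hsz⟩ :=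
      IHN (N - 1) (by omega) _ {w : W // w ≠ y} (ctr H x y) hcard rfl (by omega) h3
    exact ⟨W', i', H', hmin.trans (isMin_ctr H x y hxy), hne, hdeg, n1, hn1, by omega, hsz⟩
  push Not at h1
  by_cases h2 : ∃ x, (nb H x).card = 0
  · -- delete an isolated vertex
    obtain ⟨x, hx⟩ := h2
    rw [Finset.card_eq_zero] at hx
    have hiso : ∀ w, ¬ H.Adj x w := by
      intro w hw
      have : w ∈ nb H x := mem_nb.mpr hw
      rw [hx] at this
      simp at this
    have hcard : Fintype.card {w : W // w ≠ x} = N - 1 := by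
      have := Fintype.card_subtype_compl (fun w : W => w = x)
      rw [Fintype.card_subtype_eq, hW] at this
      exact this
    set H1 : SimpleGraph {w : W // w ≠ x} := H.comap Subtype.val with hH1
    have hAP : (AP H).card ≤ (AP H1).card := by
      have hx1 : ∀ p ∈ AP H, p.1 ≠ x := by
        intro p hp h
        rw [mem_AP] at hp
        rw [h] at hp
        exact hiso _ hp
      have hx2 : ∀ p ∈ AP H, p.2 ≠ x := by
        intro p hp h
        rw [mem_AP] at hp
        rw [h] at hp
        exact hiso _ hp.symm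
      apply Finset.card_le_card_of_surjOn (fun p : {w : W // w ≠ x} × {w : W // w ≠ x} =>
        (p.1.1, p.2.1))
      intro p hp
      have hp' : p ∈ AP H := hp
      refine ⟨(⟨p.1, hx1 p hp'⟩, ⟨p.2, hx2 p hp'⟩), ?_, rfl⟩
      have h7 : H.Adj p.1 p.2 := mem_AP.mp hp'
      exact (mem_AP (H := H1)).mpr h7
    have h3 : 2 * a * (N - 1) ≤ (AP H1).card + c := by
      have h4 : 2 * a * (N - 1) ≤ 2 * a * N := Nat.mul_le_mul_left _ (by omega)
      omega
    obtain ⟨W', i', H', hmin, hne, hdeg, n1, hn1, hn1', hsz⟩ :=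
      IHN (N - 1) (by omega) _ {w : W // w ≠ x} H1 hcard rfl (by omega) h3
    have hmin1 : IsMin H1 H := isMin_of_inj Subtype.val Subtype.val_injective (fun _ _ h => h)
    exact ⟨W', i', H', hmin.trans hmin1, hne, hdeg, n1, hn1, by omega, hsz⟩
  push Not at h2
  have hWne : Nonempty W := by
    rw [← Fintype.card_pos_iff, hW]; omega
  by_cases h3 : 2 * a * N + 2 ≤ (AP H).card + c
  · -- delete an edge
    obtain ⟨x⟩ := hWne
    have hx := h2 x
    obtain ⟨y, hy⟩ := Finset.card_pos.mp (Nat.pos_of_ne_zero hx)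
    rw [mem_nb] at hy
    set H1 : SimpleGraph W := H.deleteEdges {s(x, y)} with hH1
    have hadj : ∀ u v, H1.Adj u v ↔ H.Adj u v ∧ ¬ ((u = x ∧ v = y) ∨ (u = y ∧ v = x)) := by
      intro u v
      rw [hH1, SimpleGraph.deleteEdges_adj, Set.mem_singleton_iff, Sym2.eq_iff]
    have hlt : (AP H1).card < (AP H).card := by
      apply Finset.card_lt_card
      rw [Finset.ssubset_iff_of_subset]
      · refine ⟨(x, y), mem_AP.mpr hy, ?_⟩
        rw [mem_AP, hadj]
        simp
      · intro p hp
        rw [mem_AP] at hp ⊢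
        exact ((hadj _ _).mp hp).1
    have hge : (AP H).card ≤ (AP H1).card + 2 := by
      have hsub : AP H ⊆ AP H1 ∪ {(x, y), (y, x)} := by
        intro p hp
        rw [mem_AP] at hp
        rw [Finset.mem_union, mem_AP, hadj, Finset.mem_insert, Finset.mem_singleton]
        by_cases h : (p.1 = x ∧ p.2 = y) ∨ (p.1 = y ∧ p.2 = x)
        · right
          rcases h with h | h
          · left; exact Prod.ext h.1 h.2
          · right; exact Prod.ext h.1 h.2
        · left; exact ⟨hp, h⟩
      have h4 := (Finset.card_le_card hsub).trans (Finset.card_union_le _ _)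
      have h5 : ({(x, y), (y, x)} : Finset (W × W)).card ≤ 2 := Finset.card_le_two
      omega
    obtain ⟨W', i', H', hmin, hne, hdeg, n1, hn1, hn1', hsz⟩ :=
      IHM (AP H1).card (by omega) W H1 hW rfl hn0 (by omega)
    have hmin1 : IsMin H1 H := isMin_of_inj id Function.injective_id
      (fun u v h => ((hadj u v).mp h).1)
    exact ⟨W', i', H', hmin.trans hmin1, hne, hdeg, n1, hn1, hn1', hsz⟩
  push Not at h3
  -- a vertex of minimum degree
  obtain ⟨x, _, hxmin⟩ := Finset.exists_min_image (Finset.univ : Finset W)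
    (fun v => (nb H v).card) ⟨Classical.arbitrary W, Finset.mem_univ _⟩
  have hdegN : (nb H x).card * N ≤ (AP H).card := by
    rw [card_AP, mul_comm, ← smul_eq_mul, ← hW, ← Finset.card_univ]
    exact Finset.card_nsmul_le_sum _ _ _ (fun v hv => hxmin v hv)
  set H1 : SimpleGraph {w : W // H.Adj x w} := H.comap Subtype.val with hH1
  have hcard : Fintype.card {w : W // H.Adj x w} = (nb H x).card := by
    rw [Fintype.card_subtype]
    congr 1
  refine ⟨{w : W // H.Adj x w}, inferInstance, H1,
    isMin_of_inj Subtype.val Subtype.val_injective (fun _ _ h => h), ?_, ?_, N, hn0N, le_refl _, ?_⟩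
  · obtain ⟨y, hy⟩ := Finset.card_pos.mp (Nat.pos_of_ne_zero (h2 x))
    exact ⟨⟨y, mem_nb.mp hy⟩⟩
  · intro v
    refine (h1 x v.1 v.2).trans ?_
    apply Finset.card_le_card_of_surjOn (fun w : {w : W // H.Adj x w} => w.1)
    intro w hw
    have hw' : w ∈ nb H x ∩ nb H v.1 := hw
    rw [Finset.mem_inter, mem_nb, mem_nb] at hw'
    refine ⟨⟨w, hw'.1⟩, ?_, rfl⟩
    show _ ∈ nb H1 v
    rw [mem_nb]
    exact hw'.2
  · rw [hcard]
    omega

/-- average degree `24 s` gives a minor on at most `12 s` vertices with minimum degree `7 s` -/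
theorem dense_minor (s : ℕ) (hs : 1 ≤ s) (W : Type) [Fintype W] [Nonempty W]
    (H : SimpleGraph W) (hH : 24 * s * Fintype.card W ≤ (AP H).card) :
    ∃ (W' : Type) (_ : Fintype W') (H' : SimpleGraph W'), IsMin H' H ∧ Nonempty W' ∧
      (∀ v, 7 * s ≤ (nb H' v).card) ∧ Fintype.card W' ≤ 12 * s := by
  have hW : 1 ≤ Fintype.card W := Fintype.card_pos
  obtain ⟨W0, i0, H0, hmin0, hne0, hdeg0, n1, hn1, _, hsz0⟩ :=
    dense_nbhd (12 * s) 0 1 (by omega) _ _ W H rfl rfl hW (by
      have : 2 * (12 * s) * Fintype.card W = 24 * s * Fintype.card W := by ring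
      omega)
  have hW0 : Fintype.card W0 ≤ 24 * s := by
    by_contra h
    push Not at h
    have h1 : (24 * s + 1) * n1 ≤ Fintype.card W0 * n1 := Nat.mul_le_mul_right _ h
    have h2 : (24 * s + 1) * n1 = 2 * (12 * s) * n1 + n1 := by ring
    omega
  have hAP0 : 12 * s * Fintype.card W0 ≤ (AP H0).card := by
    rw [card_AP, mul_comm, ← smul_eq_mul, ← Finset.card_univ]
    exact Finset.card_nsmul_le_sum _ _ _ (fun v _ => hdeg0 v)
  have hW0' : 7 * s ≤ Fintype.card W0 := by
    obtain ⟨v⟩ := hne0
    have h1 := nb_card_lt H0 v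
    have h2 := hdeg0 v
    omega
  obtain ⟨W1, i1, H1, hmin1, hne1, hdeg1, n2, hn2, hn2', hsz1⟩ :=
    dense_nbhd (7 * s) (49 * s * s) (7 * s) (by
      obtain ⟨u, hu⟩ : ∃ u, 7 * s = u + 1 := ⟨7 * s - 1, by omega⟩
      have h1 : 7 * s - 1 = u := by omega
      rw [h1, hu]
      have h2 : 49 * s * s = (u + 1) * (u + 1) := by rw [← hu]; ring
      rw [h2]
      nlinarith) _ _ W0 H0 rfl rfl hW0' (by
      have h1 : 2 * (7 * s) * Fintype.card W0 = 12 * s * Fintype.card W0 +
        2 * s * Fintype.card W0 := by ring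
      have h2 : 2 * s * Fintype.card W0 ≤ 2 * s * (24 * s) := Nat.mul_le_mul_left _ hW0
      have h3 : 2 * s * (24 * s) ≤ 49 * s * s := by nlinarith
      omega)
  refine ⟨W1, i1, H1, hmin1.trans hmin0, hne1, hdeg1, ?_⟩
  by_contra h
  push Not at h
  have h1 : (12 * s + 1) * n2 ≤ Fintype.card W1 * n2 := Nat.mul_le_mul_right _ h
  have h2 : n2 ≤ 24 * s := hn2'.trans hW0
  nlinarith

/-- dense graphs on few vertices contain a complete minor -/
theorem complete_minor (s t : ℕ) (hst : t * (t + 1) ≤ 4 * s)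
    (W : Type) [Fintype W] [Nonempty W] (H : SimpleGraph W)
    (hdeg : ∀ v, 7 * s ≤ (nb H v).card) (hcard : Fintype.card W ≤ 12 * s) :
    IsMin (⊤ : SimpleGraph (Fin t)) H := by
  classical
  have hcom : ∀ u v, 2 * s ≤ (nb H u ∩ nb H v).card := by
    intro u v
    have h1 := Finset.card_union_add_card_inter (nb H u) (nb H v)
    have h2 : (nb H u ∪ nb H v).card ≤ Fintype.card W := Finset.card_le_univ _
    have h3 := hdeg u
    have h4 := hdeg v
    omega
  have htW : t ≤ Fintype.card W := by
    have h1 := nb_card_lt H (Classical.arbitrary W)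
    have h2 := hdeg (Classical.arbitrary W)
    have h3 : t ≤ t * (t + 1) := Nat.le_mul_of_pos_right _ (by omega)
    omega
  obtain ⟨b⟩ : Nonempty (Fin t ↪ W) :=
    Function.Embedding.nonempty_of_card_le (by rwa [Fintype.card_fin])
  set I := (Finset.univ : Finset (Fin t × Fin t)).filter (fun p => p.1 < p.2) with hI
  have hIcard : 2 * I.card + t ≤ t * t := by
    have h1 : ((Finset.univ : Finset (Fin t × Fin t)).filter (fun p => p.2 < p.1)).card =
        I.card := by
      apply Finset.card_bij (fun p _ => (p.2, p.1))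
      · intro p hp
        rw [Finset.mem_filter] at hp
        rw [hI, Finset.mem_filter]
        exact ⟨Finset.mem_univ _, hp.2⟩
      · rintro ⟨a, b⟩ _ ⟨a', b'⟩ _ h
        simp only [Prod.mk.injEq] at h
        rw [h.1, h.2]
      · rintro ⟨a, b⟩ hp
        rw [hI, Finset.mem_filter] at hp
        refine ⟨(b, a), ?_, rfl⟩
        rw [Finset.mem_filter]
        exact ⟨Finset.mem_univ _, hp.2⟩
    have h2 : ((Finset.univ : Finset (Fin t × Fin t)).filter (fun p => p.1 = p.2)).card = t := by
      rw [show ((Finset.univ : Finset (Fin t × Fin t)).filter (fun p => p.1 = p.2)) =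
        (Finset.univ : Finset (Fin t)).image (fun i => (i, i)) from ?_]
      · rw [Finset.card_image_of_injective _ (fun i j h => (Prod.mk.inj h).1), Finset.card_univ,
          Fintype.card_fin]
      · ext ⟨a, b⟩
        simp [eq_comm]
    have h3 : I.card + ((Finset.univ : Finset (Fin t × Fin t)).filter (fun p => p.2 < p.1)).card +
        ((Finset.univ : Finset (Fin t × Fin t)).filter (fun p => p.1 = p.2)).card ≤
        (Finset.univ : Finset (Fin t × Fin t)).card := by
      rw [← Finset.card_union_of_disjoint, ← Finset.card_union_of_disjoint]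
      · exact Finset.card_le_univ _
      · rw [Finset.disjoint_left]
        rintro p hp hp'
        rw [Finset.mem_union, hI, Finset.mem_filter, Finset.mem_filter] at hp
        rw [Finset.mem_filter] at hp'
        rcases hp with hp | hp
        · exact hp.2.ne hp'.2
        · exact hp.2.ne hp'.2.symm
      · rw [Finset.disjoint_left]
        rintro p hp hp'
        rw [hI, Finset.mem_filter] at hp
        rw [Finset.mem_filter] at hp'
        exact absurd hp.2 (not_lt.mpr hp'.2.le)
    rw [h1, h2, Finset.card_univ, Fintype.card_prod, Fintype.card_fin] at h3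
    omega
  have hItotal : I.card + t ≤ 2 * s := by
    have : t * (t + 1) = t * t + t := by ring
    omega
  -- distinct representatives
  set A : {p // p ∈ I} → Finset W := fun p =>
    (nb H (b p.1.1) ∩ nb H (b p.1.2)) \ (Finset.univ.image b) with hA
  have hAcard : ∀ p, I.card ≤ (A p).card := by
    intro p
    have h1 := Finset.le_card_sdiff (Finset.univ.image b) (nb H (b p.1.1) ∩ nb H (b p.1.2))
    have h2 : (Finset.univ.image b).card ≤ t := by
      have := Finset.card_image_le (s := (Finset.univ : Finset (Fin t))) (f := b)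
      rwa [Finset.card_univ, Fintype.card_fin] at this
    have h3 := hcom (b p.1.1) (b p.1.2)
    rw [hA]
    simp only
    omega
  obtain ⟨g, hginj, hg⟩ := (Finset.all_card_le_biUnion_card_iff_exists_injective A).mp (by
    intro Q
    rcases Q.eq_empty_or_nonempty with rfl | ⟨p, hp⟩
    · simp
    · have h1 : Q.card ≤ I.card := by
        have := Finset.card_le_univ Q
        rwa [Fintype.card_coe] at this
      exact (h1.trans (hAcard p)).trans (Finset.card_le_card (Finset.subset_biUnion_of_mem A hp)))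
  have hgadj1 : ∀ p, H.Adj (b p.1.1) (g p) := by
    intro p
    have := hg p
    rw [hA] at this
    simp only [Finset.mem_sdiff, Finset.mem_inter, mem_nb] at this
    exact this.1.1
  have hgadj2 : ∀ p, H.Adj (b p.1.2) (g p) := by
    intro p
    have := hg p
    rw [hA] at this
    simp only [Finset.mem_sdiff, Finset.mem_inter, mem_nb] at this
    exact this.1.2
  have hgb : ∀ p i, g p ≠ b i := by
    intro p i h
    have := hg p
    rw [hA] at this
    simp only [Finset.mem_sdiff] at this
    apply this.2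
    rw [h]
    exact Finset.mem_image_of_mem _ (Finset.mem_univ _)
  refine ⟨fun i => {w | w = b i ∨ ∃ p : {p // p ∈ I}, p.1.1 = i ∧ w = g p}, ?_, ?_, ?_, ?_⟩
  · intro i; exact ⟨b i, Or.inl rfl⟩
  · intro i
    have key : ∀ u ∈ {w | w = b i ∨ ∃ p : {p // p ∈ I}, p.1.1 = i ∧ w = g p},
        CIn H {w | w = b i ∨ ∃ p : {p // p ∈ I}, p.1.1 = i ∧ w = g p} u (b i) ∧
        CIn H {w | w = b i ∨ ∃ p : {p // p ∈ I}, p.1.1 = i ∧ w = g p} (b i) u := by
      intro u hu
      have hb : b i ∈ {w | w = b i ∨ ∃ p : {p // p ∈ I}, p.1.1 = i ∧ w = g p} := Or.inl rfl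
      rcases hu with rfl | ⟨p, hp, rfl⟩
      · exact ⟨Relation.ReflTransGen.refl, Relation.ReflTransGen.refl⟩
      · have h1 : H.Adj (b i) (g p) := by rw [← hp]; exact hgadj1 p
        have h2 : g p ∈ {w | w = b i ∨ ∃ p : {p // p ∈ I}, p.1.1 = i ∧ w = g p} :=
          Or.inr ⟨p, hp, rfl⟩
        exact ⟨Relation.ReflTransGen.single ⟨h1.symm, h2, hb⟩,
          Relation.ReflTransGen.single ⟨h1, hb, h2⟩⟩
    intro u hu v hv
    exact (key u hu).1.trans (key v hv).2
  · intro i j hij
    rw [Set.disjoint_left]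
    intro w hw hw'
    rcases hw with rfl | ⟨p, hp, rfl⟩
    · rcases hw' with h | ⟨p, hp, h⟩
      · exact hij (b.injective h)
      · exact hgb p i h.symm
    · rcases hw' with h | ⟨p', hp', h⟩
      · exact hgb p j h
      · have := hginj h
        rw [this] at hp
        exact hij (hp.symm.trans hp')
  · intro i j hij
    rw [SimpleGraph.top_adj] at hij
    rcases lt_or_gt_of_ne hij with h | h
    · have hp : (i, j) ∈ I := by
        rw [hI, Finset.mem_filter]; exact ⟨Finset.mem_univ _, h⟩
      exact ⟨g ⟨(i, j), hp⟩, Or.inr ⟨⟨(i, j), hp⟩, rfl, rfl⟩, b j, Or.inl rfl,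
        (hgadj2 ⟨(i, j), hp⟩).symm⟩
    · have hp : (j, i) ∈ I := by
        rw [hI, Finset.mem_filter]; exact ⟨Finset.mem_univ _, h⟩
      exact ⟨b i, Or.inl rfl, g ⟨(j, i), hp⟩, Or.inr ⟨⟨(j, i), hp⟩, rfl, rfl⟩,
        hgadj2 ⟨(j, i), hp⟩⟩

end Pool.Agent.H313R2.FL
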