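import Mathlib
import Pool.Agent.H313R2.FL.Clu
import Pool.Agent.H313R2.FL.Dense
import Pool.Agent.H313R2.FL.Conv

set_option autoImplicit false

namespace Pool.Agent.H313R2.FL

/-- a walk inside a class -/
lemma cin_of_conn {V E : Type} [DecidableEq E] [Fintype E] {ends : E → V × V} {K' : Finset E}
    (x : V) {u v : V} (h : conn ends K' u v) (hu : conn ends K' x u) :
    CIn (gr ends Finset.univ) {w | conn ends K' x w} u v := by
  obtain ⟨p⟩ := h
  induction p with
  | nil => exact Relation.ReflTransGen.refl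
  | @cons a b c hadj p ih =>
    have hb : conn ends K' x b := conn_trans hu (SimpleGraph.Adj.reachable hadj)
    exact Relation.ReflTransGen.head ⟨gr_mono (Finset.subset_univ _) hadj, hu, hb⟩ (ih hb)

/-- girth condition in graphs without a `K_t` minor -/
theorem gc_minor {V E : Type} [DecidableEq E] [Fintype E] [Fintype V] (ends : E → V × V)
    (r t : ℕ) (hr : 3 ≤ r) (hrt : 2 * (t * (t + 1)) ≤ 2 ^ r) (q : ℝ) (hq : (8 * r + 2 : ℕ) < q)
    (hmin : ¬ IsMin (⊤ : SimpleGraph (Fin t)) (gr ends Finset.univ)) :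
    GC (rk ends) q := by
  classical
  intro K S hKS hne hl hcs
  by_contra hcon
  push Not at hcon
  apply hmin
  have hrkr := isRk_rk (V := V) ends
  have hind : Ind ends (8 * r + 2) K S := by
    intro T hT hc
    have h1 := hcon T hT (by
      have : (T.card : ℝ) ≤ (8 * r + 2 : ℕ) := by exact_mod_cast hc
      linarith)
    have h2 := hrkr.union_le K T
    omega
  have hl' : ∀ e ∈ S, ¬ conn ends K (ends e).1 (ends e).2 :=
    fun e he => rk_insert_iff'.mp (hl e he)
  have hdeg : ∀ y, (out ends K S y).Nonempty → 3 ≤ (out ends K S y).card :=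
    fun y hy => deg_three hcs y hy
  obtain ⟨X, T, hTS, hXne, hX1, hX2, hX3, hTX, hXc⟩ := clusters r hne hl'
    (fun T hT hc => hind T hT (by omega)) hdeg
  have hXne' : Nonempty {x // x ∈ X} := by
    obtain ⟨x, hx⟩ := hXne
    exact ⟨⟨x, hx⟩⟩
  have hX3' : ∀ v, (out ends K S v).Nonempty → ∃ x : {x // x ∈ X}, ∃ Z ⊆ T, Z.card ≤ 2 * r ∧
      conn ends (K ∪ Z) x.1 v := by
    intro v hv
    obtain ⟨x, hx, h⟩ := hX3 v hv
    exact ⟨⟨x, hx⟩, h⟩
  choose! ρ Z hZT hZc hZ using hX3'
  set K' := K ∪ T with hK'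
  have hρ : ∀ v, (out ends K S v).Nonempty → conn ends K' (ρ v).1 v := by
    intro v hv
    exact conn_mono (Finset.union_subset_union_right (hZT v hv)) (hZ v hv)
  have hnear : ∀ u v, (out ends K S u).Nonempty → (out ends K S v).Nonempty → ρ u = ρ v →
      ∃ Y ⊆ T, Y.card ≤ 4 * r ∧ conn ends (K ∪ Y) u v := by
    intro u v hu hv huv
    refine ⟨Z u ∪ Z v, Finset.union_subset (hZT u hu) (hZT v hv), ?_, ?_⟩
    · have h1 := Finset.card_union_le (Z u) (Z v)
      have h2 := hZc u hu
      have h3 := hZc v hv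
      omega
    · have h1 := conn_mono (B := K ∪ (Z u ∪ Z v))
        (Finset.union_subset_union_right Finset.subset_union_left) (hZ u hu)
      have h2 := conn_mono (B := K ∪ (Z u ∪ Z v))
        (Finset.union_subset_union_right Finset.subset_union_right) (hZ v hv)
      rw [← huv] at h2
      exact conn_trans (conn_symm h1) h2
  have ho1 : ∀ f ∈ S, (out ends K S (ends f).1).Nonempty := fun f hf =>
    ⟨f, mem_out.mpr ⟨hf, Or.inl ⟨conn_refl _ _, hl' f hf⟩⟩⟩
  have ho2 : ∀ f ∈ S, (out ends K S (ends f).2).Nonempty := fun f hf =>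
    ⟨f, mem_out.mpr ⟨hf, Or.inr ⟨conn_refl _ _, fun h => hl' f hf (conn_symm h)⟩⟩⟩
  have hnoloop : ∀ f ∈ S \ T, ρ (ends f).1 ≠ ρ (ends f).2 := by
    intro f hf h
    rw [Finset.mem_sdiff] at hf
    obtain ⟨Y, hY, hYc, hYcn⟩ := hnear _ _ (ho1 f hf.1) (ho2 f hf.1) h
    exact ind_not_conn hind (hY.trans hTS) hf.1 (fun hh => hf.2 (hY hh)) (by omega) hYcn
  have hnopar : ∀ f ∈ S \ T, ∀ g ∈ S \ T, f ≠ g →
      ∀ a b, (a = (ends g).1 ∧ b = (ends g).2) ∨ (a = (ends g).2 ∧ b = (ends g).1) →
      ρ (ends f).1 = ρ a → ρ (ends f).2 = ρ b → False := by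
    intro f hf g hg hfg a b hab h1 h2
    rw [Finset.mem_sdiff] at hf hg
    have hoa : (out ends K S a).Nonempty := by
      rcases hab with ⟨rfl, rfl⟩ | ⟨rfl, rfl⟩
      · exact ho1 g hg.1
      · exact ho2 g hg.1
    have hob : (out ends K S b).Nonempty := by
      rcases hab with ⟨rfl, rfl⟩ | ⟨rfl, rfl⟩
      · exact ho2 g hg.1
      · exact ho1 g hg.1
    obtain ⟨Y, hY, hYc, hYcn⟩ := hnear _ _ (ho1 f hf.1) hoa h1
    obtain ⟨Y', hY', hYc', hYcn'⟩ := hnear _ _ (ho2 f hf.1) hob h2
    have hge : conn ends (K ∪ (Y ∪ Y' ∪ {g})) a b := by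
      have h3 : conn ends (K ∪ (Y ∪ Y' ∪ {g})) (ends g).1 (ends g).2 :=
        conn_edge (Finset.mem_union_right _ (Finset.mem_union_right _
          (Finset.mem_singleton_self g)))
      rcases hab with ⟨rfl, rfl⟩ | ⟨rfl, rfl⟩
      · exact h3
      · exact conn_symm h3
    have hc1 : conn ends (K ∪ (Y ∪ Y' ∪ {g})) (ends f).1 a :=
      conn_mono (Finset.union_subset_union_right
        (Finset.subset_union_left.trans Finset.subset_union_left)) hYcn
    have hc2 : conn ends (K ∪ (Y ∪ Y' ∪ {g})) (ends f).2 b :=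
      conn_mono (Finset.union_subset_union_right
        (Finset.subset_union_right.trans Finset.subset_union_left)) hYcn'
    refine ind_not_conn hind (T := Y ∪ Y' ∪ {g}) ?_ hf.1 ?_ ?_
      (conn_trans hc1 (conn_trans hge (conn_symm hc2)))
    · apply Finset.union_subset
      · exact Finset.union_subset (hY.trans hTS) (hY'.trans hTS)
      · exact Finset.singleton_subset_iff.mpr hg.1
    · rw [Finset.mem_union, Finset.mem_union, Finset.mem_singleton]
      rintro ((h | h) | h)
      · exact hf.2 (hY h)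
      · exact hf.2 (hY' h)
      · exact hfg h
    · have h3 := Finset.card_union_le (Y ∪ Y') {g}
      have h4 := Finset.card_union_le Y Y'
      rw [Finset.card_singleton] at h3
      omega
  -- the quotient graph
  let H : SimpleGraph {x // x ∈ X} :=
    { Adj := fun x x' => x ≠ x' ∧ ∃ u v, conn ends K' x.1 u ∧ conn ends K' x'.1 v ∧
        (gr ends Finset.univ).Adj u v
      symm := ⟨by
        rintro x x' ⟨h, u, v, h1, h2, h3⟩
        exact ⟨h.symm, v, u, h2, h1, h3.symm⟩⟩
      loopless := ⟨fun x h => h.1 rfl⟩ }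
  have hHmin : IsMin H (gr ends Finset.univ) := by
    refine ⟨fun x => {w | conn ends K' x.1 w}, ?_, ?_, ?_, ?_⟩
    · intro x; exact ⟨x.1, conn_refl _ _⟩
    · intro x u hu v hv
      exact cin_of_conn x.1 (conn_trans (conn_symm hu) hv) hu
    · intro x x' hxx'
      rw [Set.disjoint_left]
      intro w hw hw'
      exact hxx' (Subtype.ext (hX2 x.1 x.2 x'.1 x'.2 (conn_trans hw (conn_symm hw'))))
    · rintro x x' ⟨_, u, v, h1, h2, h3⟩
      exact ⟨u, h1, v, h2, h3⟩
  have hadj : ∀ f ∈ S \ T, H.Adj (ρ (ends f).1) (ρ (ends f).2) := by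
    intro f hf
    have hfS := (Finset.mem_sdiff.mp hf).1
    refine ⟨hnoloop f hf, (ends f).1, (ends f).2, hρ _ (ho1 f hfS), hρ _ (ho2 f hfS), ?_⟩
    simp only [gr, SimpleGraph.fromRel_adj]
    refine ⟨?_, Or.inl ⟨f, Finset.mem_univ _, rfl⟩⟩
    intro h
    apply hl' f hfS
    rw [h]
    exact conn_refl _ _
  have hAP : 2 * (S \ T).card ≤ (AP H).card := by
    have hi1 : ((S \ T).image (fun f => (ρ (ends f).1, ρ (ends f).2))).card = (S \ T).card := by
      apply Finset.card_image_of_injOn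
      intro f hf g hg h
      by_contra hfg
      simp only [Prod.mk.injEq] at h
      exact hnopar f hf g hg hfg _ _ (Or.inl ⟨rfl, rfl⟩) h.1 h.2
    have hi2 : ((S \ T).image (fun f => (ρ (ends f).2, ρ (ends f).1))).card = (S \ T).card := by
      apply Finset.card_image_of_injOn
      intro f hf g hg h
      by_contra hfg
      simp only [Prod.mk.injEq] at h
      exact hnopar f hf g hg hfg _ _ (Or.inl ⟨rfl, rfl⟩) h.2 h.1
    have hdis : Disjoint ((S \ T).image (fun f => (ρ (ends f).1, ρ (ends f).2)))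
        ((S \ T).image (fun f => (ρ (ends f).2, ρ (ends f).1))) := by
      rw [Finset.disjoint_left]
      intro p hp hp'
      rw [Finset.mem_image] at hp hp'
      obtain ⟨f, hf, rfl⟩ := hp
      obtain ⟨g, hg, h⟩ := hp'
      simp only [Prod.mk.injEq] at h
      by_cases hfg : f = g
      · subst hfg
        exact hnoloop f hf h.2
      · exact hnopar f hf g hg hfg _ _ (Or.inr ⟨rfl, rfl⟩) h.1.symm h.2.symm
    have hsub : ((S \ T).image (fun f => (ρ (ends f).1, ρ (ends f).2))) ∪
        ((S \ T).image (fun f => (ρ (ends f).2, ρ (ends f).1))) ⊆ AP H := by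
      intro p hp
      rw [mem_AP]
      rw [Finset.mem_union, Finset.mem_image, Finset.mem_image] at hp
      rcases hp with ⟨f, hf, rfl⟩ | ⟨f, hf, rfl⟩
      · exact hadj f hf
      · exact (hadj f hf).symm
    have := Finset.card_le_card hsub
    rw [Finset.card_union_of_disjoint hdis, hi1, hi2] at this
    omega
  have h3met := three_met_le (ends := ends) (K := K) (S := S) hdeg
  have hST : (S \ T).card + T.card = S.card := Finset.card_sdiff_add_card_eq_card hTS
  have hXcard : Fintype.card {x // x ∈ X} = X.card := Fintype.card_coe X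
  obtain ⟨s, hs⟩ : ∃ s, 2 ^ r = 8 * s := by
    obtain ⟨m, rfl⟩ := Nat.exists_eq_add_of_le hr
    exact ⟨2 ^ m, by rw [pow_add]; norm_num⟩
  have hs1 : 1 ≤ s := by
    have : 0 < 2 ^ r := by positivity
    omega
  have hbig : 24 * s * Fintype.card {x // x ∈ X} ≤ (AP H).card := by
    rw [hXcard]
    have h5 : X.card * (3 * 2 ^ r - 2) + 2 * X.card = 24 * s * X.card := by
      have h6 : 3 * 2 ^ r - 2 + 2 = 24 * s := by omega
      calc X.card * (3 * 2 ^ r - 2) + 2 * X.card = X.card * (3 * 2 ^ r - 2 + 2) := by ring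
        _ = 24 * s * X.card := by rw [h6]; ring
    omega
  obtain ⟨W', i', H', hmin', hne', hdeg', hcard'⟩ := dense_minor s hs1 _ H hbig
  have hfin := complete_minor s t (by omega) W' H' hdeg' hcard'
  exact (hfin.trans hmin').trans hHmin

end Pool.Agent.H313R2.FL
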